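import Mathlib

set_option autoImplicit false

open SimpleGraph

namespace Pool.Agent.Helper14_LA

variable {V W : Type*}

/-- A linear forest: an acyclic graph all of whose degrees are at most two. -/
def IsLinearForest (F : SimpleGraph V) : Prop :=
  F.IsAcyclic ∧ ∀ v, (F.neighborSet v).ncard ≤ 2

lemma IsLinearForest.mono [Finite V] {F F' : SimpleGraph V} (h : F ≤ F')
    (hF' : IsLinearForest F') : IsLinearForest F := by
  refine ⟨hF'.1.anti h, fun v => le_trans ?_ (hF'.2 v)⟩
  exact Set.ncard_le_ncard (fun w hw => h hw) (Set.toFinite _)

open Classical in
/-- In an acyclic finite graph, the degrees in a connected component add up to `2 |C| - 2`. -/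
lemma comp_sum [Fintype W] (L : SimpleGraph W) (hL : L.IsAcyclic) (C : L.ConnectedComponent) :
    (∑ v : W with L.connectedComponentMk v = C, (L.neighborSet v).ncard) + 2
      = 2 * (Finset.univ.filter (fun v : W => L.connectedComponentMk v = C)).card := by
  have hT := hL.isTree_connectedComponent C
  have h1 := hT.card_edgeFinset
  have h2 := C.toSimpleGraph.sum_degrees_eq_twice_card_edges
  have h3 : ∀ v : C, C.toSimpleGraph.degree v = (L.neighborSet (v : W)).ncard := by
    intro v
    rw [← SimpleGraph.card_neighborSet_eq_degree, ← Nat.card_eq_fintype_card,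
      Nat.card_coe_set_eq]
    rw [← Set.ncard_image_of_injective _ Subtype.val_injective]
    congr 1
    ext w
    constructor
    · rintro ⟨w', hw', rfl⟩
      exact hw'
    · intro hw
      have hwC : w ∈ C := by
        have hv : L.connectedComponentMk (v : W) = C := v.2
        have hw2 : L.Adj (v : W) w := hw
        show L.connectedComponentMk w = C
        rw [← hv]
        exact (ConnectedComponent.sound hw2.reachable).symm
      exact ⟨⟨w, hwC⟩, hw, rfl⟩
  have h4 : (∑ v : W with L.connectedComponentMk v = C, (L.neighborSet v).ncard)
      = ∑ v : C, (L.neighborSet (v : W)).ncard := by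
    refine Finset.sum_subtype _ ?_ _
    intro x
    simp only [Finset.mem_filter, Finset.mem_univ, true_and]
    rfl
  have h5 : (Finset.univ.filter (fun v : W => L.connectedComponentMk v = C)).card
      = Fintype.card C := by
    rw [Fintype.card_subtype]
    congr 1
  rw [h4, h5, ← h1]
  simp only [h3] at h2
  rw [h2]
  ring

open Classical in
/-- In a linear forest, the slots `2 - deg` of each component add up to exactly two. -/
lemma slot_sum [Fintype W] (L : SimpleGraph W) (hL : IsLinearForest L)
    (C : L.ConnectedComponent) :
    (∑ v : W with L.connectedComponentMk v = C, (2 - (L.neighborSet v).ncard)) = 2 := by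
  have h := comp_sum L hL.1 C
  have h2 : (∑ v : W with L.connectedComponentMk v = C, (2 - (L.neighborSet v).ncard))
      + (∑ v : W with L.connectedComponentMk v = C, (L.neighborSet v).ncard)
      = 2 * (Finset.univ.filter (fun v : W => L.connectedComponentMk v = C)).card := by
    rw [← Finset.sum_add_distrib]
    rw [Finset.sum_congr rfl (g := fun _ => 2)]
    · simp [mul_comm]
    · intro v _
      have := hL.2 v
      omega
  omega

end Pool.Agent.Helper14_LA
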