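import Mathlib
import Pool.Agent.Helper14_LA.Basic

set_option autoImplicit false

open SimpleGraph

namespace Pool.Agent.Helper14_LA

variable {V W : Type*}

/-- Colour class in the product: copies of `L` in every layer, and over an edge `u u'` of `P`
those vertical edges `(u, y) (u', y)` for which `T u u' y` holds. -/
def layered (P : SimpleGraph V) (L : SimpleGraph W) (T : V → V → W → Prop)
    (hT : ∀ u u' y, T u u' y → T u' u y) : SimpleGraph (V × W) where
  Adj x y := (x.1 = y.1 ∧ L.Adj x.2 y.2) ∨ (x.2 = y.2 ∧ P.Adj x.1 y.1 ∧ T x.1 y.1 x.2)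
  symm := ⟨by
    rintro ⟨a, b⟩ ⟨c, d⟩ (⟨h1, h2⟩ | ⟨h1, h2, h3⟩)
    · exact Or.inl ⟨h1.symm, h2.symm⟩
    · refine Or.inr ⟨h1.symm, h2.symm, ?_⟩
      simp only at h1 h3 ⊢
      rw [← h1]
      exact hT _ _ _ h3⟩
  loopless := ⟨by
    rintro ⟨a, b⟩ (⟨_, h⟩ | ⟨_, h, _⟩)
    · exact h.ne rfl
    · exact h.ne rfl⟩

lemma reachable_induct {U : Type*} {G : SimpleGraph U} {x : U} (I : U → Prop) (h0 : I x)
    (hstep : ∀ y z, I y → G.Adj y z → I z) {y : U} (h : G.Reachable x y) : I y := by
  obtain ⟨p⟩ := h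
  induction p with
  | nil => exact h0
  | cons hadj p ih => exact ih (hstep _ _ h0 hadj)

lemma layered_isAcyclic (P : SimpleGraph V) (L : SimpleGraph W) (T : V → V → W → Prop)
    (hT : ∀ u u' y, T u u' y → T u' u y) (hP : P.IsAcyclic) (hL : L.IsAcyclic)
    (hA : ∀ u u' y y', P.Adj u u' → T u u' y → T u u' y' → L.Reachable y y' → y = y') :
    (layered P L T hT).IsAcyclic := by
  rw [isAcyclic_iff_forall_adj_isBridge]
  rintro ⟨u, v⟩ ⟨u', v'⟩ (⟨h1, h2⟩ | ⟨h1, h2, h3⟩)
  · -- an edge inside a layer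
    simp only at h1 h2
    subst h1
    rw [isBridge_iff]
    intro hreach
    have hbr : ¬ (L.deleteEdges {s(v, v')}).Reachable v v' :=
      (isAcyclic_iff_forall_adj_isBridge.1 hL) h2
    -- the invariant
    let I : V × W → Prop := fun p =>
      L.Reachable v p.2 ∧ ((p.1 = u ∧ (L.deleteEdges {s(v, v')}).Reachable v p.2) ∨
        (∃ u₁, P.Adj u u₁ ∧ (P.deleteEdges {s(u, u₁)}).Reachable u₁ p.1 ∧
          ∃ y₁, T u u₁ y₁ ∧ (L.deleteEdges {s(v, v')}).Reachable v y₁))
    have hbrP : ∀ u₁, P.Adj u u₁ → ¬ (P.deleteEdges {s(u, u₁)}).Reachable u₁ u := by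
      intro u₁ h h'
      exact (isAcyclic_iff_forall_adj_isBridge.1 hP) h h'.symm
    have hfin : I (u, v') := by
      refine reachable_induct I ⟨Reachable.refl _, Or.inl ⟨rfl, Reachable.refl _⟩⟩ ?_ hreach
      rintro ⟨x, y⟩ ⟨x', y'⟩ ⟨hr, hI⟩ hadj
      rw [deleteEdges_adj] at hadj
      obtain ⟨hadj, hne⟩ := hadj
      rcases hadj with ⟨g1, g2⟩ | ⟨g1, g2, g3⟩
      · -- layer edge
        simp only at g1 g2 hr hI
        subst g1
        refine ⟨hr.trans g2.reachable, ?_⟩
        rcases hI with ⟨rfl, hI⟩ | hI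
        · left
          refine ⟨rfl, hI.trans ?_⟩
          refine Adj.reachable ?_
          rw [deleteEdges_adj]
          refine ⟨g2, fun hcon => hne ?_⟩
          simp only [Set.mem_singleton_iff, Sym2.eq, Sym2.rel_iff', Prod.mk.injEq,
            Prod.swap_prod_mk] at hcon ⊢
          rcases hcon with ⟨rfl, rfl⟩ | ⟨rfl, rfl⟩ <;> simp
        · exact Or.inr hI
      · -- vertical edge
        simp only at g1 g2 g3 hr hI
        subst g1
        refine ⟨hr, ?_⟩
        rcases hI with ⟨rfl, hI⟩ | ⟨u₁, k1, k2, y₁, k3, k4⟩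
        · right
          exact ⟨x', g2, Reachable.refl _, y, g3, hI⟩
        · by_cases hedge : s(x, x') = s(u, u₁)
          · rw [Sym2.eq_iff] at hedge
            rcases hedge with ⟨rfl, rfl⟩ | ⟨rfl, rfl⟩
            · exact absurd k2 (hbrP _ k1)
            · left
              refine ⟨rfl, ?_⟩
              have : y₁ = y := by
                refine hA _ _ _ _ k1 k3 (hT _ _ _ g3) ?_
                exact ((k4.mono (deleteEdges_le _)).symm).trans hr
              rw [← this]
              exact k4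
          · right
            refine ⟨u₁, k1, k2.trans ?_, y₁, k3, k4⟩
            refine Adj.reachable ?_
            rw [deleteEdges_adj]
            exact ⟨g2, hedge⟩
    rcases hfin with ⟨_, ⟨_, h⟩ | ⟨u₁, k1, k2, _⟩⟩
    · exact hbr h
    · exact hbrP _ k1 k2
  · -- a vertical edge
    simp only at h1 h2 h3
    subst h1
    rw [isBridge_iff]
    intro hreach
    have hbr : ¬ (P.deleteEdges {s(u, u')}).Reachable u u' :=
      (isAcyclic_iff_forall_adj_isBridge.1 hP) h2
    let I : V × W → Prop := fun p =>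
      L.Reachable v p.2 ∧ (P.deleteEdges {s(u, u')}).Reachable u p.1
    have hfin : I (u', v) := by
      refine reachable_induct I ⟨Reachable.refl _, Reachable.refl _⟩ ?_ hreach
      rintro ⟨x, y⟩ ⟨x', y'⟩ ⟨hr, hI⟩ hadj
      rw [deleteEdges_adj] at hadj
      obtain ⟨hadj, hne⟩ := hadj
      rcases hadj with ⟨g1, g2⟩ | ⟨g1, g2, g3⟩
      · simp only at g1 g2 hr hI
        subst g1
        exact ⟨hr.trans g2.reachable, hI⟩
      · simp only at g1 g2 g3 hr hI
        subst g1
        refine ⟨hr, ?_⟩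
        by_cases hedge : s(x, x') = s(u, u')
        · exfalso
          apply hne
          rw [Sym2.eq_iff] at hedge
          rcases hedge with ⟨rfl, rfl⟩ | ⟨rfl, rfl⟩
          · have : v = y := hA _ _ _ _ h2 h3 g3 hr
            subst this
            rfl
          · have : v = y := hA _ _ _ _ h2 h3 (hT _ _ _ g3) hr
            subst this
            rw [Sym2.eq_swap]
            rfl
        · refine hI.trans (Adj.reachable ?_)
          rw [deleteEdges_adj]
          exact ⟨g2, hedge⟩
    exact hbr hfin.2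

end Pool.Agent.Helper14_LA
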