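import Mathlib

set_option autoImplicit false

namespace Pool.Agent.Helper14_LA

open Equiv Equiv.Perm

/-- Two fixed point free involutions of a set admit a common `2`-colouring. -/
lemma two_color_aux {S : Type*} (σ τ : Perm S) (hσ : ∀ x, σ (σ x) = x) (hτ : ∀ x, τ (τ x) = x)
    (hσ' : ∀ x, σ x ≠ x) (hτ' : ∀ x, τ x ≠ x) :
    ∃ f : S → Bool, (∀ x, f (σ x) ≠ f x) ∧ (∀ x, f (τ x) ≠ f x) := by
  classical
  set ρ : Perm S := σ * τ with hρ
  have hρ1 : σ * ρ = ρ⁻¹ * σ := by
    have h1 : σ * σ = 1 := by ext x; simp [hσ]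
    have h2 : τ * τ = 1 := by ext x; simp [hτ]
    have h3 : σ⁻¹ = σ := by rw [inv_eq_iff_mul_eq_one]; exact h1
    have h4 : τ⁻¹ = τ := by rw [inv_eq_iff_mul_eq_one]; exact h2
    rw [hρ, mul_inv_rev, h3, h4, ← mul_assoc, h1, one_mul, mul_assoc, h1, mul_one]
  have hρk : ∀ (k : ℤ), σ * ρ ^ k = ρ ^ (-k) * σ := by
    intro k
    have h1 : σ * ρ * σ⁻¹ = ρ⁻¹ := by rw [hρ1]; group
    have h2 : σ * ρ ^ k * σ⁻¹ = (σ * ρ * σ⁻¹) ^ k := by
      rw [conj_zpow]
    rw [h1] at h2
    rw [zpow_neg, ← inv_zpow, ← h2]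
    group
  have hρk' : ∀ (k : ℤ) (x : S), σ ((ρ ^ k) x) = (ρ ^ (-k)) (σ x) := by
    intro k x
    have := congrArg (fun g : Perm S => g x) (hρk k)
    simpa using this
  have key : ∀ x, ¬ ρ.SameCycle x (σ x) := by
    rintro x ⟨k, hk⟩
    rcases Int.even_or_odd' k with ⟨j, rfl | rfl⟩
    · have : σ ((ρ ^ j) x) = (ρ ^ j) x := by
        rw [hρk', ← hk, ← Perm.mul_apply, ← zpow_add]
        congr 2
        ring
      exact hσ' _ this
    · have h1 : τ ((ρ ^ j) x) = σ ((ρ ^ (j + 1)) x) := by
        rw [add_comm j 1, zpow_add, Perm.mul_apply, zpow_one, hρ, Perm.mul_apply, hσ]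
      have : τ ((ρ ^ j) x) = (ρ ^ j) x := by
        rw [h1, hρk', ← hk, ← Perm.mul_apply, ← zpow_add]
        congr 2
        ring
      exact hτ' _ this
  have hσsame : ∀ x y, ρ.SameCycle x y → ρ.SameCycle (σ x) (σ y) := by
    rintro x y ⟨k, rfl⟩
    exact ⟨-k, by rw [hρk']⟩
  have hτσ : ∀ x, ρ.SameCycle (τ x) (σ x) := by
    intro x
    exact ⟨1, by simp [hρ, hτ]⟩
  let r : Setoid S :=
    { r := fun x y => ρ.SameCycle x y ∨ ρ.SameCycle x (σ y)
      iseqv := by
        constructor
        · intro x; exact Or.inl (SameCycle.refl _ _)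
        · rintro x y (h | h)
          · exact Or.inl h.symm
          · right
            have := hσsame _ _ h.symm
            rwa [hσ] at this
        · rintro x y z (h | h) (h' | h')
          · exact Or.inl (h.trans h')
          · exact Or.inr (h.trans h')
          · exact Or.inr (h.trans (hσsame _ _ h'))
          · left
            have := hσsame _ _ h'
            rw [hσ] at this
            exact h.trans this }
  let rep : S → S := fun x => (Quotient.mk r x).out
  have hrep : ∀ x, ρ.SameCycle (rep x) x ∨ ρ.SameCycle (rep x) (σ x) := fun x =>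
    Quotient.exact (Quotient.out_eq (Quotient.mk r x))
  have hrepeq : ∀ x y, (ρ.SameCycle x y ∨ ρ.SameCycle x (σ y)) → rep x = rep y := by
    intro x y h
    have : Quotient.mk r x = Quotient.mk r y := Quotient.sound h
    simp only [rep, this]
  have hrepσ : ∀ x, rep (σ x) = rep x := fun x => hrepeq _ _ (Or.inr (SameCycle.refl _ _))
  have hrepτ : ∀ x, rep (τ x) = rep x := fun x => hrepeq _ _ (Or.inr (hτσ x))
  have hmain : ∀ x, (ρ.SameCycle (rep x) (σ x)) ↔ ¬ ρ.SameCycle (rep x) x := by
    intro x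
    constructor
    · intro h h'
      exact key x (h'.symm.trans h)
    · intro h
      exact (hrep x).resolve_left h
  refine ⟨fun x => decide (ρ.SameCycle (rep x) x), fun x => ?_, fun x => ?_⟩
  · simp only [ne_eq, decide_eq_decide, hrepσ, hmain]
    tauto
  · simp only [ne_eq, decide_eq_decide, hrepτ]
    have h1 : ρ.SameCycle (rep x) (τ x) ↔ ρ.SameCycle (rep x) (σ x) :=
      ⟨fun h => h.trans (hτσ x), fun h => h.trans (hτσ x).symm⟩
    rw [h1, hmain]
    tauto

/-- A fixed point free involution and an arbitrary involution: a `2`-colouring that separates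
the two points of every orbit. -/
lemma two_color {S : Type*} (σ τ : Perm S) (hσ : ∀ x, σ (σ x) = x) (hτ : ∀ x, τ (τ x) = x)
    (hσ' : ∀ x, σ x ≠ x) :
    ∃ f : S → Bool, (∀ x, f (σ x) ≠ f x) ∧ (∀ x, τ x ≠ x → f (τ x) ≠ f x) := by
  classical
  let σ' : S × Bool → S × Bool := fun p => (σ p.1, p.2)
  let τ' : S × Bool → S × Bool := fun p => if τ p.1 = p.1 then (p.1, !p.2) else (τ p.1, p.2)
  have hσ'2 : Function.Involutive σ' := by
    rintro ⟨x, b⟩
    simp [σ', hσ]
  have hτ'2 : Function.Involutive τ' := by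
    rintro ⟨x, b⟩
    by_cases h : τ x = x
    · simp [τ', h]
    · have h2 : ¬ x = τ x := fun h' => h h'.symm
      simp [τ', h, hτ, h2]
  obtain ⟨f, hf1, hf2⟩ := two_color_aux (Function.Involutive.toPerm σ' hσ'2) (Function.Involutive.toPerm τ' hτ'2) (fun x => hσ'2 x)
    (fun x => hτ'2 x)
    (by
      rintro ⟨x, b⟩ h
      have h' : σ' (x, b) = (x, b) := h
      simp only [σ', Prod.mk.injEq, and_true] at h'
      exact hσ' x h')
    (by
      rintro ⟨x, b⟩ h
      have h' : τ' (x, b) = (x, b) := h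
      by_cases h3 : τ x = x
      · simp [τ', h3] at h'
      · simp [τ', h3] at h')
  refine ⟨fun x => f (x, false), fun x => hf1 (x, false), fun x hx => ?_⟩
  have := hf2 (x, false)
  have h2 : (Function.Involutive.toPerm τ' hτ'2) (x, false) = (τ x, false) := by
    show τ' (x, false) = _
    simp [τ', hx]
  rw [h2] at this
  exact this

/-- A map `p : W × Bool → Q` all of whose fibres have at most two elements: one can colour the
points of `W × Bool` with two colours such that both `(v, false)`, `(v, true)` and any two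
different points in one fibre of `p` get different colours. -/
lemma two_color_fibres {W Q : Type*} (p : W × Bool → Q)
    (hp : ∀ x y z, p x = p y → p y = p z → x = y ∨ y = z ∨ x = z) :
    ∃ f : W × Bool → Bool, (∀ v, f (v, true) ≠ f (v, false)) ∧
      (∀ x y, x ≠ y → p x = p y → f x ≠ f y) := by
  classical
  let τ : W × Bool → W × Bool := fun x =>
    if h : ∃ y, y ≠ x ∧ p x = p y then h.choose else x
  have hτ1 : ∀ x y, x ≠ y → p x = p y → τ x = y := by
    intro x y hxy hp'
    have h : ∃ y, y ≠ x ∧ p x = p y := ⟨y, hxy.symm, hp'⟩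
    have hτx : τ x = h.choose := dif_pos h
    rw [hτx]
    have h1 := h.choose_spec
    rcases hp h.choose x y h1.2.symm hp' with h2 | h2 | h2
    · exact absurd h2 h1.1
    · exact absurd h2 hxy
    · exact h2
  have hτ2 : Function.Involutive τ := by
    intro x
    by_cases h : ∃ y, y ≠ x ∧ p x = p y
    · obtain ⟨y, hy1, hy2⟩ := h
      rw [hτ1 x y hy1.symm hy2, hτ1 y x hy1 hy2.symm]
    · have : τ x = x := dif_neg h
      rw [this, this]
  let σ : W × Bool → W × Bool := fun x => (x.1, !x.2)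
  have hσ2 : Function.Involutive σ := by
    rintro ⟨x, b⟩
    simp [σ]
  obtain ⟨f, hf1, hf2⟩ := two_color (Function.Involutive.toPerm σ hσ2) (Function.Involutive.toPerm τ hτ2) (fun x => hσ2 x) (fun x => hτ2 x)
    (by
      rintro ⟨x, b⟩ h
      have h' : σ (x, b) = (x, b) := h
      simp [σ] at h')
  refine ⟨f, fun v => hf1 (v, false), fun x y hxy hpxy => ?_⟩
  have h1 := hτ1 x y hxy hpxy
  have h2 := hf2 x (by
    show τ x ≠ x
    rw [h1]
    exact hxy.symm)
  have h3 : (Function.Involutive.toPerm τ hτ2) x = y := h1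
  rw [h3] at h2
  exact h2.symm

end Pool.Agent.Helper14_LA
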