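import Mathlib
import Pool.Agent.Helper14_LA.Basic
import Pool.Agent.Helper14_LA.TwoColor

set_option autoImplicit false

open SimpleGraph

namespace Pool.Agent.Helper14_LA

variable {V W : Type*}

open Classical in
/-- Two free slots at every vertex. -/
lemma exists_slots {b : ℕ} (d : W → Fin b → ℕ) (hd : ∀ v c, d v c ≤ 2)
    (hsum : ∀ v, ∑ c, d v c + 2 ≤ 2 * b) :
    ∃ s : W × Bool → Fin b, ∀ v c,
      d v c + (if s (v, false) = c then 1 else 0) + (if s (v, true) = c then 1 else 0) ≤ 2 := by
  have hv : ∀ v, ∃ c₁ c₂ : Fin b, ∀ c,
      d v c + (if c₁ = c then 1 else 0) + (if c₂ = c then 1 else 0) ≤ 2 := by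
    intro v
    by_cases h0 : ∃ c, d v c = 0
    · obtain ⟨c₀, hc₀⟩ := h0
      refine ⟨c₀, c₀, fun c => ?_⟩
      by_cases h : c₀ = c
      · subst h; simp [hc₀]
      · simp [h, hd v c]
    · push Not at h0
      have h1 : (Finset.univ.filter (fun c => d v c = 1)).card ≥ 2 := by
        have e1 : ∑ c, (d v c + (if d v c = 1 then 1 else 0)) = 2 * b := by
          rw [Finset.sum_congr rfl (g := fun _ => 2)]
          · simp [mul_comm]
          · intro c _
            have e2 := h0 c
            have e3 := hd v c
            split_ifs <;> omega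
        rw [Finset.sum_add_distrib] at e1
        have e4 : (Finset.univ.filter (fun c => d v c = 1)).card
            = ∑ c, (if d v c = 1 then 1 else 0) := by
          rw [Finset.card_filter]
        have := hsum v
        omega
      obtain ⟨c₁, hc₁, c₂, hc₂, hne⟩ := Finset.one_lt_card.1 h1
      simp only [Finset.mem_filter, Finset.mem_univ, true_and] at hc₁ hc₂
      refine ⟨c₁, c₂, fun c => ?_⟩
      by_cases h : c₁ = c
      · subst h
        have : c₂ ≠ c₁ := hne.symm
        simp [hc₁, this]
      · by_cases h' : c₂ = c
        · subst h'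
          simp [hc₂, h]
        · simp [h, h', hd v c]
  choose c₁ c₂ hc using hv
  refine ⟨fun x => if x.2 then c₂ x.1 else c₁ x.1, fun v c => ?_⟩
  simpa using hc v c

/-- The two slot functions. -/
lemma exists_alpha_beta [Finite W] {b : ℕ} (L : Fin b → SimpleGraph W)
    (hL : ∀ c, IsLinearForest (L c))
    (hsum : ∀ v, ∑ c, ((L c).neighborSet v).ncard + 2 ≤ 2 * b) :
    ∃ α β : W → Fin b,
      (∀ v c, ((L c).neighborSet v).ncard ≤ 2 ∧
        (α v = c → ((L c).neighborSet v).ncard ≤ 1) ∧
        (β v = c → ((L c).neighborSet v).ncard ≤ 1) ∧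
        (α v = c → β v = c → ((L c).neighborSet v).ncard = 0)) ∧
      (∀ v v', α v = α v' → (L (α v)).Reachable v v' → v = v') ∧
      (∀ v v', β v = β v' → (L (β v)).Reachable v v' → v = v') := by
  classical
  have := Fintype.ofFinite W
  obtain ⟨s, hs⟩ := exists_slots (fun v c => ((L c).neighborSet v).ncard)
    (fun v c => (hL c).2 v) hsum
  let p : W × Bool → Fin b × Set W := fun x => (s x, {w | (L (s x)).Reachable x.1 w})
  have hp : ∀ x y, p x = p y ↔ s x = s y ∧ (L (s x)).Reachable x.1 y.1 := by
    intro x y
    simp only [p, Prod.mk.injEq]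
    constructor
    · rintro ⟨h1, h2⟩
      refine ⟨h1, ?_⟩
      have : y.1 ∈ {w | (L (s y)).Reachable y.1 w} := Reachable.refl _
      rw [← h2] at this
      exact this
    · rintro ⟨h1, h2⟩
      refine ⟨h1, ?_⟩
      ext w
      simp only [Set.mem_ofPred_eq]
      rw [← h1]
      exact ⟨fun h => h2.symm.trans h, fun h => h2.trans h⟩
  have hfib : ∀ x y z, p x = p y → p y = p z → x = y ∨ y = z ∨ x = z := by
    intro x y z hxy hyz
    by_contra hcon
    push Not at hcon
    obtain ⟨n1, n2, n3⟩ := hcon
    set c := s x with hc
    set C := (L c).connectedComponentMk x.1 with hC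
    have hsum2 := slot_sum (L c) (hL c) C
    have hle : ∑ v : W with (L c).connectedComponentMk v = C,
        ((if s (v, false) = c then 1 else 0) + (if s (v, true) = c then 1 else 0)) ≤ 2 := by
      rw [← hsum2]
      refine Finset.sum_le_sum fun v _ => ?_
      have := hs v c
      omega
    have hcard : (Finset.univ.filter (fun q : W × Bool => s q = c ∧
        (L c).connectedComponentMk q.1 = C)).card ≤ 2 := by
      refine le_trans (le_of_eq ?_) hle
      rw [Finset.card_filter, ← Finset.univ_product_univ, Finset.sum_product, Finset.sum_filter]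
      refine Finset.sum_congr rfl fun v _ => ?_
      rw [Fintype.sum_bool]
      by_cases h : (L c).connectedComponentMk v = C
      · simp only [h, and_true, if_true]
        rw [add_comm]
      · simp [h]
    have hsub : ({x, y, z} : Finset (W × Bool)) ⊆ (Finset.univ.filter (fun q : W × Bool => s q = c ∧
        (L c).connectedComponentMk q.1 = C)) := by
      have hxy' := (hp x y).1 hxy
      have hxz' := (hp x z).1 (hxy.trans hyz)
      intro q hq
      simp only [Finset.mem_insert, Finset.mem_singleton] at hq
      simp only [Finset.mem_filter, Finset.mem_univ, true_and]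
      rcases hq with rfl | rfl | rfl
      · exact ⟨rfl, rfl⟩
      · exact ⟨hxy'.1.symm, (ConnectedComponent.sound hxy'.2).symm⟩
      · exact ⟨hxz'.1.symm, (ConnectedComponent.sound hxz'.2).symm⟩
    have h3 : ({x, y, z} : Finset (W × Bool)).card = 3 :=
      Finset.card_eq_three.2 ⟨x, y, z, n1, n3, n2, rfl⟩
    have := Finset.card_le_card hsub
    omega
  obtain ⟨f, hf1, hf2⟩ := two_color_fibres p hfib
  let iα : W → Bool := fun v => !(f (v, false))
  let iβ : W → Bool := fun v => f (v, false)
  have hfα : ∀ v, f (v, iα v) = true := by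
    intro v
    have h1 := hf1 v
    by_cases h : f (v, false) = true
    · have h2 : iα v = false := by simp only [iα, h, Bool.not_true]
      rw [h2]
      exact h
    · have h' : f (v, false) = false := by simpa using h
      have h2 : iα v = true := by simp only [iα, h', Bool.not_false]
      rw [h2]
      rw [h'] at h1
      simpa using h1
  have hfβ : ∀ v, f (v, iβ v) = false := by
    intro v
    have h1 := hf1 v
    by_cases h : f (v, false) = true
    · have h2 : iβ v = true := by simp only [iβ, h]
      rw [h2]
      rw [h] at h1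
      simpa using h1
    · have h' : f (v, false) = false := by simpa using h
      have h2 : iβ v = false := by simp only [iβ, h']
      rw [h2]
      exact h'
  refine ⟨fun v => s (v, iα v), fun v => s (v, iβ v), ?_, ?_, ?_⟩
  · intro v c
    have h1 := hs v c
    refine ⟨(hL c).2 v, ?_, ?_, ?_⟩
    · intro h
      cases hi : f (v, false) <;> simp only [iα, hi, Bool.not_false, Bool.not_true] at h <;>
        simp only [h, if_true] at h1 <;> omega
    · intro h
      cases hi : f (v, false) <;> simp only [iβ, hi] at h <;>
        simp only [h, if_true] at h1 <;> omega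
    · intro h h'
      cases hi : f (v, false) <;>
        simp only [iα, iβ, hi, Bool.not_false, Bool.not_true] at h h' <;>
        simp only [h, h', if_true] at h1 <;> omega
  · intro v v' h1 h2
    by_contra hne
    have hne' : (v, iα v) ≠ (v', iα v') := fun h => hne (congrArg Prod.fst h)
    have := hf2 _ _ hne' ((hp _ _).2 ⟨h1, h2⟩)
    rw [hfα, hfα] at this
    exact this rfl
  · intro v v' h1 h2
    by_contra hne
    have hne' : (v, iβ v) ≠ (v', iβ v') := fun h => hne (congrArg Prod.fst h)
    have := hf2 _ _ hne' ((hp _ _).2 ⟨h1, h2⟩)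
    rw [hfβ, hfβ] at this
    exact this rfl

end Pool.Agent.Helper14_LA
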