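import Mathlib
import Pool.Agent.Helper14_LA.Basic

set_option autoImplicit false

open SimpleGraph

namespace Pool.Agent.Helper14_LA

variable {V W : Type*}

lemma exists_leaf [Finite V] (L : SimpleGraph V) (hL : IsLinearForest L) {a b : V}
    (hab : L.Adj a b) : ∃ x y, L.Adj x y ∧ ∀ z, L.Adj x z → z = y := by
  classical
  have := Fintype.ofFinite V
  have h := slot_sum L hL (L.connectedComponentMk a)
  obtain ⟨x, hx, hx2⟩ : ∃ x ∈ (Finset.univ.filter
      (fun v : V => L.connectedComponentMk v = L.connectedComponentMk a)),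
      (2 - (L.neighborSet x).ncard) ≠ 0 := by
    by_contra hcon
    push Not at hcon
    rw [Finset.sum_eq_zero hcon] at h
    omega
  simp only [Finset.mem_filter, Finset.mem_univ, true_and] at hx
  have hreach : L.Reachable x a := ConnectedComponent.exact hx
  obtain ⟨y, hy⟩ : ∃ y, L.Adj x y := by
    obtain ⟨p⟩ := hreach
    cases p with
    | nil => exact ⟨b, hab⟩
    | cons h _ => exact ⟨_, h⟩
  refine ⟨x, y, hy, ?_⟩
  intro z hz
  have hle : (L.neighborSet x).ncard ≤ 1 := by omega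
  exact (Set.ncard_le_one (Set.toFinite _)).1 hle z hz y hy

/-- A linear forest is the edge-disjoint union of two matchings. -/
lemma split_matchings [Finite V] : ∀ (n : ℕ) (P : SimpleGraph V), IsLinearForest P →
    P.edgeSet.ncard = n → ∃ M₁ M₂ : SimpleGraph V,
      (∀ u v, P.Adj u v ↔ M₁.Adj u v ∨ M₂.Adj u v) ∧ (∀ u v, M₁.Adj u v → ¬ M₂.Adj u v) ∧
      (∀ u v w, M₁.Adj u v → M₁.Adj u w → v = w) ∧
      (∀ u v w, M₂.Adj u v → M₂.Adj u w → v = w) := by
  intro n
  induction n using Nat.strong_induction_on with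
  | _ n ih =>
  intro P hP hn
  by_cases hbot : P = ⊥
  · subst hbot
    exact ⟨⊥, ⊥, by simp, by simp, by simp, by simp⟩
  obtain ⟨a, b, hab⟩ : ∃ a b, P.Adj a b := by
    by_contra hcon
    push Not at hcon
    apply hbot
    ext u v
    simp [hcon u v]
  obtain ⟨x, y, hxy, hx⟩ := exists_leaf P hP hab
  have hne : x ≠ y := hxy.ne
  set P' := P.deleteEdges {s(x, y)} with hP'
  have hle : P' ≤ P := deleteEdges_le _
  have hadj : ∀ u v, P.Adj u v ↔ P'.Adj u v ∨ (u = x ∧ v = y) ∨ (u = y ∧ v = x) := by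
    intro u v
    rw [hP', deleteEdges_adj]
    constructor
    · intro h
      by_cases h2 : s(u, v) ∈ ({s(x, y)} : Set (Sym2 V))
      · right
        simpa using h2
      · exact Or.inl ⟨h, h2⟩
    · rintro (h | ⟨rfl, rfl⟩ | ⟨rfl, rfl⟩)
      · exact h.1
      · exact hxy
      · exact hxy.symm
  have hP'x : ∀ z, ¬ P'.Adj x z := by
    intro z hz
    have h1 := hx z (hle hz)
    subst h1
    rw [hP', deleteEdges_adj] at hz
    exact hz.2 rfl
  have hcard : P'.edgeSet.ncard < n := by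
    rw [← hn]
    refine Set.ncard_lt_ncard ?_ (Set.toFinite _)
    rw [hP', edgeSet_deleteEdges]
    refine ⟨Set.sdiff_subset, fun hcon => ?_⟩
    exact (hcon (show s(x, y) ∈ P.edgeSet from hxy)).2 rfl
  obtain ⟨M₁, M₂, h1, h2, h3, h4⟩ := ih _ hcard P' (hP.mono hle) rfl
  have hM₁x : ∀ z, ¬ M₁.Adj x z := fun z hz => hP'x z ((h1 x z).2 (Or.inl hz))
  have hM₂x : ∀ z, ¬ M₂.Adj x z := fun z hz => hP'x z ((h1 x z).2 (Or.inr hz))
  -- the degree of `y`
  have hdeg : ∀ z z', P'.Adj y z → P'.Adj y z' → z = z' := by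
    intro z z' hz hz'
    by_contra hzz
    have hsub : ({x, z, z'} : Set V) ⊆ P.neighborSet y := by
      rintro w (rfl | rfl | rfl)
      · exact hxy.symm
      · exact hle hz
      · exact hle hz'
    have hxz : x ≠ z := by rintro rfl; exact hP'x y hz.symm
    have hxz' : x ≠ z' := by rintro rfl; exact hP'x y hz'.symm
    have h5 := Set.ncard_le_ncard hsub (Set.toFinite _)
    rw [Set.ncard_eq_three.2 ⟨x, z, z', hxz, hxz', hzz, rfl⟩] at h5
    have := hP.2 y
    omega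
  -- the new edge
  have key : ∀ M M' : SimpleGraph V, (∀ z, ¬ M.Adj x z) → (∀ z, ¬ M.Adj y z) →
      (∀ z, ¬ M'.Adj x z) →
      (∀ u v, P'.Adj u v ↔ M.Adj u v ∨ M'.Adj u v) → (∀ u v, M.Adj u v → ¬ M'.Adj u v) →
      (∀ u v w, M.Adj u v → M.Adj u w → v = w) →
      (∀ u v w, M'.Adj u v → M'.Adj u w → v = w) →
      ∃ N : SimpleGraph V, (∀ u v, P.Adj u v ↔ N.Adj u v ∨ M'.Adj u v) ∧
        (∀ u v, N.Adj u v → ¬ M'.Adj u v) ∧ (∀ u v w, N.Adj u v → N.Adj u w → v = w) := by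
    intro M M' hMx hMy hM'x e1 e2 e3 e4
    refine ⟨M ⊔ SimpleGraph.edge x y, ?_, ?_, ?_⟩
    · intro u v
      rw [hadj, e1, sup_adj, edge_adj]
      constructor
      · rintro ((h | h) | ⟨rfl, rfl⟩ | ⟨rfl, rfl⟩)
        · exact Or.inl (Or.inl h)
        · exact Or.inr h
        · exact Or.inl (Or.inr ⟨Or.inl ⟨rfl, rfl⟩, hne⟩)
        · exact Or.inl (Or.inr ⟨Or.inr ⟨rfl, rfl⟩, hne.symm⟩)
      · rintro ((h | h) | h)
        · exact Or.inl (Or.inl h)
        · exact Or.inr h.1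
        · exact Or.inl (Or.inr h)
    · intro u v
      rw [sup_adj, edge_adj]
      rintro (h | ⟨⟨rfl, rfl⟩ | ⟨rfl, rfl⟩, -⟩)
      · exact e2 u v h
      · exact hM'x _
      · exact fun hcon => hM'x _ hcon.symm
    · intro u v w
      rw [sup_adj, sup_adj, edge_adj, edge_adj]
      rintro (h | ⟨⟨rfl, rfl⟩ | ⟨rfl, rfl⟩, -⟩) (h' | ⟨⟨h5, h6⟩ | ⟨h5, h6⟩, -⟩)
      · exact e3 u v w h h'
      · subst h5; exact absurd h (hMx _)
      · subst h5; exact absurd h (hMy _)
      · exact absurd h' (hMx _)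
      · exact h6.symm
      · exact absurd h5 hne
      · exact absurd h' (hMy _)
      · exact absurd h5.symm hne
      · exact h6.symm
  by_cases hy1 : ∃ z, M₁.Adj y z
  · obtain ⟨z, hz⟩ := hy1
    have hM₂y : ∀ z', ¬ M₂.Adj y z' := by
      intro z' hz'
      have := hdeg z z' ((h1 y z).2 (Or.inl hz)) ((h1 y z').2 (Or.inr hz'))
      subst this
      exact h2 y z hz hz'
    obtain ⟨N, g1, g2, g3⟩ := key M₂ M₁ hM₂x hM₂y hM₁x (fun u v => by rw [h1, or_comm])
      (fun u v h h' => h2 u v h' h) h4 h3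
    exact ⟨M₁, N, fun u v => by rw [g1, or_comm], fun u v h h' => g2 u v h' h, h3, g3⟩
  · push Not at hy1
    obtain ⟨N, g1, g2, g3⟩ := key M₁ M₂ hM₁x hy1 hM₂x h1 h2 h3 h4
    exact ⟨N, M₂, g1, g2, g3, h4⟩

end Pool.Agent.Helper14_LA
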