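import Mathlib
import Pool.Agent.Helper14_LA.Basic
import Pool.Agent.Helper14_LA.Split
import Pool.Agent.Helper14_LA.Prod
import Pool.Agent.Helper14_LA.Slots

set_option autoImplicit false

open SimpleGraph

namespace Pool.Agent.Helper14_LA

variable {V W : Type*}

/-- `G` is the union of `k` linear forests. -/
def CoveredBy (G : SimpleGraph V) (k : ℕ) : Prop :=
  ∃ F : Fin k → SimpleGraph V, (∀ i, IsLinearForest (F i)) ∧ (⨆ i, F i) = G

lemma path_prod [Finite V] [Finite W] {b : ℕ} (P : SimpleGraph V) (hP : IsLinearForest P)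
    (L : Fin b → SimpleGraph W) (hL : ∀ c, IsLinearForest (L c))
    (hsum : ∀ v, ∑ c, ((L c).neighborSet v).ncard + 2 ≤ 2 * b) :
    CoveredBy (P □ (⨆ c, L c)) b := by
  classical
  obtain ⟨M₁, M₂, hM, hdisj, hM₁, hM₂⟩ := split_matchings _ P hP rfl
  obtain ⟨α, β, hdeg, hα, hβ⟩ := exists_alpha_beta L hL hsum
  let T : Fin b → V → V → W → Prop := fun c u u' y =>
    (M₁.Adj u u' ∧ α y = c) ∨ (M₂.Adj u u' ∧ β y = c)
  have hT : ∀ c u u' y, T c u u' y → T c u' u y := by
    rintro c u u' y (⟨h1, h2⟩ | ⟨h1, h2⟩)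
    · exact Or.inl ⟨h1.symm, h2⟩
    · exact Or.inr ⟨h1.symm, h2⟩
  refine ⟨fun c => layered P (L c) (T c) (hT c), fun c => ⟨?_, ?_⟩, ?_⟩
  · refine layered_isAcyclic P (L c) (T c) (hT c) hP.1 (hL c).1 ?_
    rintro u u' y y' _ (⟨h1, h2⟩ | ⟨h1, h2⟩) (⟨h3, h4⟩ | ⟨h3, h4⟩) hr
    · refine hα y y' (h2.trans h4.symm) ?_
      rw [h2]; exact hr
    · exact absurd h3 (hdisj _ _ h1)
    · exact absurd h1 (hdisj _ _ h3)
    · refine hβ y y' (h2.trans h4.symm) ?_
      rw [h2]; exact hr
  · rintro ⟨u, v⟩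
    let A : Set (V × W) := (fun w => (u, w)) '' (L c).neighborSet v
    let B₁ : Set (V × W) := {q | M₁.Adj u q.1 ∧ α v = c ∧ q.2 = v}
    let B₂ : Set (V × W) := {q | M₂.Adj u q.1 ∧ β v = c ∧ q.2 = v}
    have hsub : (layered P (L c) (T c) (hT c)).neighborSet (u, v) ⊆ A ∪ (B₁ ∪ B₂) := by
      rintro ⟨u', v'⟩ (⟨h1, h2⟩ | ⟨h1, h2, ⟨h3, h4⟩ | ⟨h3, h4⟩⟩)
      · left
        simp only at h1 h2
        subst h1
        exact ⟨v', h2, rfl⟩
      · right; left
        exact ⟨h3, h4, h1.symm⟩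
      · right; right
        exact ⟨h3, h4, h1.symm⟩
    have hA : A.ncard ≤ ((L c).neighborSet v).ncard := Set.ncard_image_le (Set.toFinite _)
    have hB₁ : B₁.ncard ≤ if α v = c then 1 else 0 := by
      split_ifs with h
      · rw [Set.ncard_le_one (Set.toFinite _)]
        rintro ⟨x, y⟩ ⟨h1, -, h2⟩ ⟨x', y'⟩ ⟨h3, -, h4⟩
        simp only at h1 h2 h3 h4
        rw [h2, h4, hM₁ u x x' h1 h3]
      · have : B₁ = ∅ := by
          ext q
          simp only [B₁, Set.mem_ofPred_eq, Set.mem_empty_iff_false, iff_false]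
          rintro ⟨_, h', _⟩
          exact h h'
        rw [this]
        simp
    have hB₂ : B₂.ncard ≤ if β v = c then 1 else 0 := by
      split_ifs with h
      · rw [Set.ncard_le_one (Set.toFinite _)]
        rintro ⟨x, y⟩ ⟨h1, -, h2⟩ ⟨x', y'⟩ ⟨h3, -, h4⟩
        simp only at h1 h2 h3 h4
        rw [h2, h4, hM₂ u x x' h1 h3]
      · have : B₂ = ∅ := by
          ext q
          simp only [B₂, Set.mem_ofPred_eq, Set.mem_empty_iff_false, iff_false]
          rintro ⟨_, h', _⟩
          exact h h'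
        rw [this]
        simp
    have h1 : ((layered P (L c) (T c) (hT c)).neighborSet (u, v)).ncard ≤
        A.ncard + (B₁.ncard + B₂.ncard) :=
      (Set.ncard_le_ncard hsub (Set.toFinite _)).trans
        ((Set.ncard_union_le _ _).trans (Nat.add_le_add_left (Set.ncard_union_le _ _) _))
    obtain ⟨d0, d1, d2, d3⟩ := hdeg v c
    show ((layered P (L c) (T c) (hT c)).neighborSet (u, v)).ncard ≤ 2
    by_cases ha : α v = c <;> by_cases hb : β v = c <;> simp only [ha, hb, if_true, if_false] at hB₁ hB₂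
    · have := d3 ha hb; omega
    · have := d1 ha; omega
    · have := d2 hb; omega
    · omega
  · ext ⟨u, v⟩ ⟨u', v'⟩
    rw [iSup_adj, boxProd_adj]
    simp only [iSup_adj]
    constructor
    · rintro ⟨c, ⟨h1, h2⟩ | ⟨h1, h2, -⟩⟩
      · exact Or.inr ⟨⟨c, h2⟩, h1⟩
      · exact Or.inl ⟨h2, h1⟩
    · rintro (⟨h1, h2⟩ | ⟨⟨c, h1⟩, h2⟩)
      · rcases (hM u u').1 h1 with h3 | h3
        · exact ⟨α v, Or.inr ⟨h2, h1, Or.inl ⟨h3, rfl⟩⟩⟩
        · exact ⟨β v, Or.inr ⟨h2, h1, Or.inr ⟨h3, rfl⟩⟩⟩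
      · exact ⟨c, Or.inl ⟨h2, h1⟩⟩

/-- A cover by linear forests can be made edge-disjoint. -/
lemma disjointify [Finite W] {b : ℕ} (H : SimpleGraph W) (L : Fin b → SimpleGraph W)
    (hL : ∀ c, IsLinearForest (L c)) (hH : (⨆ c, L c) = H) :
    ∃ L' : Fin b → SimpleGraph W, (∀ c, IsLinearForest (L' c)) ∧ (⨆ c, L' c) = H ∧
      ∀ v, ∑ c, ((L' c).neighborSet v).ncard = (H.neighborSet v).ncard := by
  classical
  have := Fintype.ofFinite W
  rcases isEmpty_or_nonempty (Fin b) with hb | hb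
  · refine ⟨L, hL, hH, fun v => ?_⟩
    have hbot : H = ⊥ := by
      rw [← hH]
      exact iSup_of_empty _
    subst hbot
    have : ((⊥ : SimpleGraph W).neighborSet v) = ∅ := by
      ext w
      simp
    rw [this]
    simp
  have hex : ∀ e : Sym2 W, ∃ c : Fin b, e ∈ H.edgeSet → e ∈ (L c).edgeSet := by
    intro e
    by_cases he : e ∈ H.edgeSet
    · induction e with
      | _ u v =>
      rw [mem_edgeSet, ← hH, iSup_adj] at he
      obtain ⟨c, hc⟩ := he
      exact ⟨c, fun _ => hc⟩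
    · exact ⟨hb.some, fun h => absurd h he⟩
  choose col hcol using hex
  let L' : Fin b → SimpleGraph W := fun c =>
    { Adj := fun u v => H.Adj u v ∧ col s(u, v) = c
      symm := ⟨by
        rintro u v ⟨h1, h2⟩
        refine ⟨h1.symm, ?_⟩
        rw [Sym2.eq_swap]
        exact h2⟩
      loopless := ⟨fun u h => h.1.ne rfl⟩ }
  have hle : ∀ c, L' c ≤ L c := by
    rintro c u v ⟨h1, h2⟩
    have := hcol s(u, v) h1
    rw [h2] at this
    exact this
  refine ⟨L', fun c => (hL c).mono (hle c), ?_, ?_⟩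
  · ext u v
    rw [iSup_adj]
    constructor
    · rintro ⟨c, h, _⟩
      exact h
    · intro h
      exact ⟨col s(u, v), h, rfl⟩
  · intro v
    have h1 : ∀ c, ((L' c).neighborSet v).ncard
        = ((Finset.univ.filter (fun w => H.Adj v w)).filter (fun w => col s(v, w) = c)).card := by
      intro c
      rw [← Set.ncard_coe_finset]
      congr 1
      ext w
      simp [L', mem_neighborSet]
    have h2 : (H.neighborSet v).ncard = (Finset.univ.filter (fun w => H.Adj v w)).card := by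
      rw [← Set.ncard_coe_finset]
      congr 1
      ext w
      simp [mem_neighborSet]
    simp only [h1]
    rw [h2]
    exact (Finset.card_eq_sum_card_fiberwise (fun _ _ => Finset.mem_univ _)).symm

/-- The main inequality: if `G` is a union of `a + 1` linear forests, `H` is a union of `b` linear
forests and `Δ(H) ≤ 2b - 2`, then `G □ H` is a union of `a + b` linear forests. -/
theorem coveredBy_boxProd [Finite V] [Finite W] (G : SimpleGraph V) (H : SimpleGraph W)
    {a b : ℕ} (hG : CoveredBy G (a + 1)) (hH : CoveredBy H b)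
    (hdeg : ∀ v, (H.neighborSet v).ncard + 2 ≤ 2 * b) : CoveredBy (G □ H) (a + b) := by
  classical
  obtain ⟨K, hK, hKG⟩ := hG
  obtain ⟨L₀, hL₀, hLH₀⟩ := hH
  obtain ⟨L, hL, hLH, hsum⟩ := disjointify H L₀ hL₀ hLH₀
  obtain ⟨F, hF, hFsup⟩ := path_prod (K 0) (hK 0) L hL (fun v => by rw [hsum]; exact hdeg v)
  let E : Fin a → SimpleGraph (V × W) := fun i =>
    layered (K i.succ) ⊥ (fun _ _ _ => True) (fun _ _ _ _ => trivial)
  have hE : ∀ i, IsLinearForest (E i) := by
    intro i
    refine ⟨?_, ?_⟩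
    · refine layered_isAcyclic _ _ _ _ (hK i.succ).1 isAcyclic_bot ?_
      rintro u u' y y' _ _ _ hr
      exact reachable_bot.1 hr
    · rintro ⟨u, v⟩
      refine le_trans ?_ ((hK i.succ).2 u)
      refine le_trans (Set.ncard_le_ncard ?_ (Set.toFinite _))
        (Set.ncard_image_le (f := fun w => (w, v)) (Set.toFinite ((K i.succ).neighborSet u)))
      rintro ⟨u', v'⟩ (⟨_, h2⟩ | ⟨h1, h2, _⟩)
      · exact absurd h2 (by simp)
      · simp only at h1 h2
        subst h1
        exact ⟨u', h2, rfl⟩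
  refine ⟨Fin.append E F, ?_, ?_⟩
  · intro i
    refine Fin.addCases (fun i => ?_) (fun i => ?_) i
    · rw [Fin.append_left]; exact hE i
    · rw [Fin.append_right]; exact hF i
  · ext ⟨u, v⟩ ⟨u', v'⟩
    rw [iSup_adj, boxProd_adj]
    have hF' : ∀ x y, (∃ c, (F c).Adj x y) ↔ ((K 0) □ H).Adj x y := by
      intro x y
      rw [← hLH, ← hFsup, iSup_adj]
    constructor
    · rintro ⟨i, hi⟩
      revert hi
      refine Fin.addCases (fun i => ?_) (fun i => ?_) i
      · rw [Fin.append_left]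
        rintro (⟨_, h2⟩ | ⟨h1, h2, _⟩)
        · exact absurd h2 (by simp)
        · left
          refine ⟨?_, h1⟩
          rw [← hKG, iSup_adj]
          exact ⟨_, h2⟩
      · rw [Fin.append_right]
        intro hi
        rcases boxProd_adj.1 ((hF' _ _).1 ⟨i, hi⟩) with ⟨h1, h2⟩ | h
        · left
          refine ⟨?_, h2⟩
          rw [← hKG, iSup_adj]
          exact ⟨_, h1⟩
        · exact Or.inr h
    · intro h
      by_cases h0 : ((K 0) □ H).Adj (u, v) (u', v')
      · obtain ⟨c, hc⟩ := (hF' _ _).2 h0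
        exact ⟨Fin.natAdd a c, by rw [Fin.append_right]; exact hc⟩
      · rcases h with ⟨h1, h2⟩ | h
        · rw [← hKG, iSup_adj] at h1
          obtain ⟨i, hi⟩ := h1
          rcases Fin.eq_zero_or_eq_succ i with rfl | ⟨j, rfl⟩
          · exact absurd (boxProd_adj.2 (Or.inl ⟨hi, h2⟩)) h0
          · exact ⟨Fin.castAdd b j, by
              rw [Fin.append_left]
              exact Or.inr ⟨h2, hi, trivial⟩⟩
        · exact absurd (boxProd_adj.2 (Or.inr h)) h0

end Pool.Agent.Helper14_LA
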