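import Mathlib

set_option autoImplicit false

namespace Pool.Agent.Helper14_LA

open Finset

/-- A `j`-regular bipartite multigraph (edge set `E`, end point maps `h` and `t`) is the union
of `j` perfect matchings. -/
lemma konig {α W : Type*} [Fintype W] [DecidableEq W] [DecidableEq α] (h t : α → W) :
    ∀ (j : ℕ) (E : Finset α), (∀ v, (E.filter (fun e => h e = v)).card = j) →
      (∀ v, (E.filter (fun e => t e = v)).card = j) →
      ∃ l : α → ℕ, (∀ e ∈ E, l e < j) ∧
        (∀ e ∈ E, ∀ e' ∈ E, l e = l e' → h e = h e' → e = e') ∧
        (∀ e ∈ E, ∀ e' ∈ E, l e = l e' → t e = t e' → e = e') := by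
  intro j
  induction j with
  | zero =>
    intro E hE _
    have hempty : E = ∅ := by
      rw [Finset.eq_empty_iff_forall_notMem]
      intro e he
      have := hE (h e)
      rw [Finset.card_eq_zero] at this
      have he' : e ∈ E.filter (fun e' => h e' = h e) := by simp [he]
      rw [this] at he'
      simp at he'
    subst hempty
    exact ⟨fun _ => 0, by simp, by simp, by simp⟩
  | succ j ih =>
    intro E hE hE'
    have hall : ∀ A : Finset W,
        A.card ≤ (A.biUnion (fun v => (E.filter (fun e => h e = v)).image t)).card := by
      intro A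
      set B := A.biUnion (fun v => (E.filter (fun e => h e = v)).image t) with hB
      have h1 : (E.filter (fun e => h e ∈ A)).card = (j + 1) * A.card := by
        rw [Finset.card_eq_sum_card_fiberwise (f := h) (t := A)
          (fun e he => by simpa using (Finset.mem_filter.1 he).2)]
        rw [Finset.sum_congr rfl (g := fun _ => j + 1)]
        · simp [mul_comm]
        · intro v hv
          rw [← hE v]
          congr 1
          ext e
          simp only [Finset.mem_filter]
          constructor
          · rintro ⟨⟨a1, _⟩, a3⟩
            exact ⟨a1, a3⟩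
          · rintro ⟨a1, a3⟩
            exact ⟨⟨a1, by rw [a3]; exact hv⟩, a3⟩
      have h2 : (E.filter (fun e => t e ∈ B)).card = (j + 1) * B.card := by
        rw [Finset.card_eq_sum_card_fiberwise (f := t) (t := B)
          (fun e he => by simpa using (Finset.mem_filter.1 he).2)]
        rw [Finset.sum_congr rfl (g := fun _ => j + 1)]
        · simp [mul_comm]
        · intro v hv
          rw [← hE' v]
          congr 1
          ext e
          simp only [Finset.mem_filter]
          constructor
          · rintro ⟨⟨a1, _⟩, a3⟩
            exact ⟨a1, a3⟩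
          · rintro ⟨a1, a3⟩
            exact ⟨⟨a1, by rw [a3]; exact hv⟩, a3⟩
      have h3 : E.filter (fun e => h e ∈ A) ⊆ E.filter (fun e => t e ∈ B) := by
        intro e he
        simp only [Finset.mem_filter] at he ⊢
        refine ⟨he.1, ?_⟩
        rw [hB, Finset.mem_biUnion]
        exact ⟨h e, he.2, Finset.mem_image.2 ⟨e, by simp [he.1], rfl⟩⟩
      have h4 := Finset.card_le_card h3
      rw [h1, h2] at h4
      exact Nat.le_of_mul_le_mul_left h4 (Nat.succ_pos j)
    obtain ⟨φ, hφ1, hφ2⟩ := (Finset.all_card_le_biUnion_card_iff_exists_injective _).1 hall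
    have hm : ∀ v, ∃ e, e ∈ E ∧ h e = v ∧ t e = φ v := by
      intro v
      obtain ⟨e, he, he'⟩ := Finset.mem_image.1 (hφ2 v)
      rw [Finset.mem_filter] at he
      exact ⟨e, he.1, he.2, he'⟩
    choose m hm1 hm2 hm3 using hm
    have hφs : Function.Surjective φ := Finite.surjective_of_injective hφ1
    set E' := E.filter (fun e => e ≠ m (h e)) with hE'def
    have c1 : ∀ v, (E'.filter (fun e => h e = v)).card = j := by
      intro v
      have : E.filter (fun e => h e = v) = insert (m v) (E'.filter (fun e => h e = v)) := by
        ext e
        simp only [hE'def, Finset.mem_filter, Finset.mem_insert]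
        constructor
        · rintro ⟨a1, a2⟩
          by_cases h3 : e = m v
          · exact Or.inl h3
          · exact Or.inr ⟨⟨a1, by rw [a2]; exact h3⟩, a2⟩
        · rintro (rfl | ⟨⟨a1, _⟩, a2⟩)
          · exact ⟨hm1 v, hm2 v⟩
          · exact ⟨a1, a2⟩
      have h5 := hE v
      rw [this, Finset.card_insert_of_notMem] at h5
      · omega
      · simp only [hE'def, Finset.mem_filter, not_and]
        rintro ⟨_, h6⟩ h7
        exact h6 (by rw [h7])
    have c2 : ∀ v, (E'.filter (fun e => t e = v)).card = j := by
      intro v
      obtain ⟨w, rfl⟩ := hφs v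
      have : E.filter (fun e => t e = φ w) = insert (m w) (E'.filter (fun e => t e = φ w)) := by
        ext e
        simp only [hE'def, Finset.mem_filter, Finset.mem_insert]
        constructor
        · rintro ⟨a1, a2⟩
          by_cases h3 : e = m (h e)
          · left
            have h4 : φ (h e) = φ w := by rw [← a2, ← hm3, ← h3]
            rw [h3, hφ1 h4]
          · exact Or.inr ⟨⟨a1, h3⟩, a2⟩
        · rintro (rfl | ⟨⟨a1, _⟩, a2⟩)
          · exact ⟨hm1 w, hm3 w⟩
          · exact ⟨a1, a2⟩
      have h5 := hE' (φ w)
      rw [this, Finset.card_insert_of_notMem] at h5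
      · omega
      · simp only [hE'def, Finset.mem_filter, not_and]
        rintro ⟨_, h6⟩ _
        exact h6 (by rw [hm2])
    obtain ⟨l, hl1, hl2, hl3⟩ := ih E' c1 c2
    have hE'sub : ∀ e ∈ E, e ≠ m (h e) → e ∈ E' := by
      intro e he he'
      rw [hE'def, Finset.mem_filter]
      exact ⟨he, he'⟩
    refine ⟨fun e => if e = m (h e) then j else l e, ?_, ?_, ?_⟩
    · intro e he
      by_cases h1 : e = m (h e)
      · simp only [← h1, if_true]
        omega
      · simp only [h1, if_false]
        have := hl1 e (hE'sub e he h1)
        omega
    · intro e he e' he' hll hh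
      by_cases h1 : e = m (h e) <;> by_cases h2 : e' = m (h e')
      · rw [h1, h2, hh]
      · exfalso
        simp only [if_pos h1, if_neg h2] at hll
        have := hl1 e' (hE'sub e' he' h2)
        omega
      · exfalso
        simp only [if_neg h1, if_pos h2] at hll
        have := hl1 e (hE'sub e he h1)
        omega
      · simp only [if_neg h1, if_neg h2] at hll
        exact hl2 e (hE'sub e he h1) e' (hE'sub e' he' h2) hll hh
    · intro e he e' he' hll hh
      by_cases h1 : e = m (h e) <;> by_cases h2 : e' = m (h e')
      · have h3 : φ (h e) = φ (h e') := by rw [← hm3, ← hm3, ← h1, ← h2, hh]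
        rw [h1, h2, hφ1 h3]
      · exfalso
        simp only [if_pos h1, if_neg h2] at hll
        have := hl1 e' (hE'sub e' he' h2)
        omega
      · exfalso
        simp only [if_neg h1, if_pos h2] at hll
        have := hl1 e (hE'sub e he h1)
        omega
      · simp only [if_neg h1, if_neg h2] at hll
        exact hl3 e (hE'sub e he h1) e' (hE'sub e' he' h2) hll hh

end Pool.Agent.Helper14_LA
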