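import Mathlib
import Pool.Agent.Helper14_LA.Basic
import Pool.Agent.Helper14_LA.TwoColor
import Pool.Agent.Helper14_LA.Konig

set_option autoImplicit false

open SimpleGraph

namespace Pool.Agent.Helper14_LA

variable {V W : Type*}

/-- A family of `j` oriented two-factors of free slots. -/
lemma slot_structure [Finite W] {b j : ℕ} (L : Fin b → SimpleGraph W)
    (hL : ∀ c, IsLinearForest (L c))
    (hsum : ∀ v, ∑ c, ((L c).neighborSet v).ncard + 2 * j = 2 * b) :
    ∃ s : W → Fin j × Bool → Fin b,
      (∀ v c, ((L c).neighborSet v).ncard +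
        (Finset.univ.filter (fun x : Fin j × Bool => s v x = c)).card ≤ 2) ∧
      (∀ v v' x x', s v x = s v' x' → (L (s v x)).Reachable v v' →
        (v = v' ∧ x = x') ∨ (x.1 = x'.1 ∧ x.2 ≠ x'.2)) := by
  classical
  have := Fintype.ofFinite W
  -- Step 1: the slots
  have hs0 : ∀ v, ∃ s0 : Fin j × Bool → Fin b, ∀ c,
      (Finset.univ.filter (fun x => s0 x = c)).card = 2 - ((L c).neighborSet v).ncard := by
    intro v
    have hcard : Fintype.card (Fin j × Bool)
        = Fintype.card (Σ c : Fin b, Fin (2 - ((L c).neighborSet v).ncard)) := by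
      simp only [Fintype.card_prod, Fintype.card_fin, Fintype.card_bool, Fintype.card_sigma]
      have h1 : ∑ c, (2 - ((L c).neighborSet v).ncard) + ∑ c, ((L c).neighborSet v).ncard
          = 2 * b := by
        rw [← Finset.sum_add_distrib]
        rw [Finset.sum_congr rfl (g := fun _ => 2)]
        · simp [mul_comm]
        · intro c _
          have := (hL c).2 v
          omega
      have := hsum v
      omega
    let e := Fintype.equivOfCardEq hcard
    refine ⟨fun x => (e x).1, fun c => ?_⟩
    rw [← Fintype.card_fin (2 - ((L c).neighborSet v).ncard), ← Finset.card_univ]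
    symm
    refine Finset.card_bij (fun k _ => e.symm ⟨c, k⟩) ?_ ?_ ?_
    · intro k _
      simp
    · intro k _ k' _ h
      simpa using h
    · intro x hx
      simp only [Finset.mem_filter, Finset.mem_univ, true_and] at hx
      subst hx
      exact ⟨(e x).2, Finset.mem_univ _, by simp⟩
  choose s0 hs0 using hs0
  -- Step 2: the partner of a slot
  let S := W × (Fin j × Bool)
  let c0 : S → Fin b := fun x => s0 x.1 x.2
  let same : S → S → Prop := fun x y => c0 x = c0 y ∧ (L (c0 x)).Reachable x.1 y.1
  have same_symm : ∀ x y, same x y → same y x := by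
    rintro x y ⟨h1, h2⟩
    refine ⟨h1.symm, ?_⟩
    rw [← h1]
    exact h2.symm
  have same_trans : ∀ x y z, same x y → same y z → same x z := by
    rintro x y z ⟨h1, h2⟩ ⟨h3, h4⟩
    refine ⟨h1.trans h3, h2.trans ?_⟩
    rw [h1]
    exact h4
  have hfib : ∀ x : S, (Finset.univ.filter (fun y : S => same x y)).card = 2 := by
    intro x
    set c := c0 x with hc
    set C := (L c).connectedComponentMk x.1 with hC
    have hsum2 := slot_sum (L c) (hL c) C
    rw [← hsum2, Finset.card_filter, ← Finset.univ_product_univ, Finset.sum_product,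
      Finset.sum_filter]
    refine Finset.sum_congr rfl fun v _ => ?_
    have hiff : ∀ k : Fin j × Bool, same x (v, k) ↔
        ((L c).connectedComponentMk v = C ∧ s0 v k = c) := by
      intro k
      constructor
      · rintro ⟨h1, h2⟩
        exact ⟨(ConnectedComponent.sound h2).symm, h1.symm⟩
      · rintro ⟨h1, h2⟩
        exact ⟨h2.symm, (ConnectedComponent.exact h1).symm⟩
    by_cases h : (L c).connectedComponentMk v = C
    · simp only [hiff, h, true_and, if_true]
      rw [← Finset.card_filter]
      exact hs0 v c
    · simp [hiff, h]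
  have hpart : ∀ x : S, ∃ y : S, y ≠ x ∧ same x y ∧ ∀ z, same x z → z = x ∨ z = y := by
    intro x
    obtain ⟨a, a', hne, hset⟩ := Finset.card_eq_two.1 (hfib x)
    have hx : x ∈ Finset.univ.filter (fun y : S => same x y) := by
      simp only [Finset.mem_filter, Finset.mem_univ, true_and]
      exact ⟨rfl, Reachable.refl _⟩
    have hmem : ∀ z, same x z ↔ z = a ∨ z = a' := by
      intro z
      have : z ∈ Finset.univ.filter (fun y : S => same x y) ↔ z ∈ ({a, a'} : Finset S) := by
        rw [hset]
      simpa using this
    rw [hset] at hx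
    simp only [Finset.mem_insert, Finset.mem_singleton] at hx
    rcases hx with hx | hx
    · refine ⟨a', ?_, (hmem _).2 (Or.inr rfl), fun z hz => ?_⟩
      · rw [hx]; exact hne.symm
      · rw [hx]; exact (hmem z).1 hz
    · refine ⟨a, ?_, (hmem _).2 (Or.inl rfl), fun z hz => ?_⟩
      · rw [hx]; exact hne
      · rw [hx]; exact ((hmem z).1 hz).symm
  choose τ hτne hτsame hτuniq using hpart
  have hτinv : Function.Involutive τ := by
    intro x
    rcases hτuniq x (τ (τ x)) (same_trans _ _ _ (hτsame x) (hτsame (τ x))) with h | h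
    · exact h
    · exact absurd h (hτne (τ x))
  let σ : S → S := fun x => (x.1, (x.2.1, !x.2.2))
  have hσinv : Function.Involutive σ := by
    rintro ⟨v, k, ε⟩
    simp [σ]
  -- Step 3: types
  obtain ⟨f, hf1, hf2⟩ := two_color_aux (Function.Involutive.toPerm σ hσinv)
    (Function.Involutive.toPerm τ hτinv) (fun x => hσinv x) (fun x => hτinv x)
    (by
      rintro ⟨v, k, ε⟩ h
      have h' : σ (v, k, ε) = (v, k, ε) := h
      have h2 : (!ε) = ε := congrArg (fun x : W × Fin j × Bool => x.2.2) h'
      cases ε <;> simp at h2)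
    (fun x => hτne x)
  have hfσ : ∀ v k, f (v, k, true) ≠ f (v, k, false) := fun v k => hf1 (v, k, false)
  have hfτ : ∀ x, f (τ x) = !(f x) := by
    intro x
    have h : f (τ x) ≠ f x := hf2 x
    cases h1 : f (τ x) <;> cases h2 : f x <;> simp_all
  have hcount : ∀ (v : W) (β : Bool),
      (Finset.univ.filter (fun x : S => f x = β ∧ x.1 = v)).card = j := by
    intro v β
    rw [Finset.card_filter, ← Finset.univ_product_univ, Finset.sum_product,
      Finset.sum_eq_single v]
    · simp only [and_true]
      rw [← Finset.univ_product_univ, Finset.sum_product]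
      rw [Finset.sum_congr rfl (g := fun _ => 1)]
      · simp
      · intro k _
        rw [Fintype.sum_bool]
        have := hfσ v k
        cases h1 : f (v, k, true) <;> cases h2 : f (v, k, false) <;> cases β <;> simp_all
    · intro w _ hw
      refine Finset.sum_eq_zero fun k _ => ?_
      rw [if_neg]
      rintro ⟨_, h⟩
      exact hw h
    · intro h
      exact absurd (Finset.mem_univ _) h
  -- Step 4: labels
  obtain ⟨l, hl1, hl2, hl3⟩ := konig (fun x : S => x.1) (fun x : S => (τ x).1) j
    (Finset.univ.filter (fun x : S => f x = true))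
    (fun v => by
      rw [Finset.filter_filter]
      exact hcount v true)
    (fun v => by
      rw [Finset.filter_filter]
      refine Eq.trans ?_ (hcount v false)
      refine Finset.card_bij (fun x _ => τ x) ?_ ?_ ?_
      · intro x hx
        simp only [Finset.mem_filter, Finset.mem_univ, true_and] at hx ⊢
        exact ⟨by rw [hfτ, hx.1]; rfl, hx.2⟩
      · intro x _ y _ h
        exact hτinv.injective h
      · intro y hy
        simp only [Finset.mem_filter, Finset.mem_univ, true_and] at hy
        refine ⟨τ y, ?_, hτinv y⟩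
        simp only [Finset.mem_filter, Finset.mem_univ, true_and]
        exact ⟨by rw [hfτ, hy.1]; rfl, by rw [hτinv y]; exact hy.2⟩)
  simp only [Finset.mem_filter, Finset.mem_univ, true_and] at hl1 hl2 hl3
  let ℓ : S → Fin j := fun x =>
    if h : f x = true then ⟨l x, hl1 x h⟩ else ⟨l (τ x), hl1 (τ x) (by
      rw [hfτ]; simpa using h)⟩
  have hℓt : ∀ x, f x = true → ((ℓ x : Fin j) : ℕ) = l x := by
    intro x h
    simp only [ℓ, h, dif_pos]
  have hℓf : ∀ x, f x = false → ((ℓ x : Fin j) : ℕ) = l (τ x) := by
    intro x h
    have h' : ¬ f x = true := by simp [h]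
    have h2 : ℓ x = ⟨l (τ x), hl1 (τ x) (by rw [hfτ]; simpa using h')⟩ := dif_neg h'
    rw [h2]
  have hℓτ : ∀ x, ℓ (τ x) = ℓ x := by
    intro x
    apply Fin.ext
    cases h : f x
    · rw [hℓt (τ x) (by rw [hfτ, h]; rfl), hℓf x h]
    · rw [hℓf (τ x) (by rw [hfτ, h]; rfl), hℓt x h, hτinv x]
  have hinj : ∀ v, Function.Injective (fun k : Fin j × Bool => (ℓ (v, k), f (v, k))) := by
    intro v k k' hkk
    simp only [Prod.mk.injEq] at hkk
    obtain ⟨h1, h2⟩ := hkk
    have h3 : ((v, k) : S) = (v, k') := by
      cases h : f (v, k)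
      · have h' : f (v, k') = false := by rw [← h2, h]
        have h4 : l (τ (v, k)) = l (τ (v, k')) := by
          rw [← hℓf _ h, ← hℓf _ h', h1]
        have h5 := hl3 (τ (v, k)) (by rw [hfτ, h]; rfl) (τ (v, k')) (by rw [hfτ, h']; rfl) h4
          (by rw [hτinv, hτinv])
        exact hτinv.injective h5
      · have h' : f (v, k') = true := by rw [← h2, h]
        have h4 : l (v, k) = l (v, k') := by
          rw [← hℓt _ h, ← hℓt _ h', h1]
        exact hl2 _ h _ h' h4 rfl
    simpa using h3
  have hbij : ∀ v, Function.Bijective (fun k : Fin j × Bool => (ℓ (v, k), f (v, k))) := fun v =>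
    Finite.injective_iff_bijective.1 (hinj v)
  let g : W → (Fin j × Bool ≃ Fin j × Bool) := fun v => Equiv.ofBijective _ (hbij v)
  have hg : ∀ v x, (ℓ (v, (g v).symm x), f (v, (g v).symm x)) = x := fun v x =>
    (g v).apply_symm_apply x
  refine ⟨fun v x => s0 v ((g v).symm x), ?_, ?_⟩
  · intro v c
    have h1 : (Finset.univ.filter (fun x : Fin j × Bool => s0 v ((g v).symm x) = c)).card
        = (Finset.univ.filter (fun x => s0 v x = c)).card := by
      refine Finset.card_bij (fun x _ => (g v).symm x) ?_ ?_ ?_
      · intro x hx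
        simpa using hx
      · intro x _ y _ h
        exact (g v).symm.injective h
      · intro y hy
        refine ⟨g v y, ?_, by simp⟩
        simpa using hy
    rw [h1, hs0]
    have := (hL c).2 v
    omega
  · intro v v' x x' h1 h2
    have hsame : same (v, (g v).symm x) (v', (g v').symm x') := ⟨h1, h2⟩
    have hx := hg v x
    have hx' := hg v' x'
    rcases hτuniq _ _ hsame with h3 | h3
    · left
      have h4 : v' = v := congrArg Prod.fst h3
      subst h4
      refine ⟨rfl, ?_⟩
      have h5 : (g v').symm x' = (g v').symm x := congrArg Prod.snd h3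
      exact ((g v').symm.injective h5).symm
    · right
      rw [h3, hℓτ, hfτ] at hx'
      rw [← hx, ← hx']
      refine ⟨rfl, ?_⟩
      simp

end Pool.Agent.Helper14_LA
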