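import Mathlib
import Pool.Agent.Helper14_LA.Basic
import Pool.Agent.Helper14_LA.Prod
import Pool.Agent.Helper14_LA.Split
import Pool.Agent.Helper14_LA.SlotStructure
import Pool.Agent.Helper14_LA.Main

set_option autoImplicit false

open SimpleGraph

namespace Pool.Agent.Helper14_LA

variable {V W : Type*}

/-- Colour class in the product: copies of `L` in every layer, and the
vertical edges `(u, y) (u', y)` for which `T u u' y` holds. -/
def layeredGen (L : SimpleGraph W) (T : V → V → W → Prop)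
    (hT : ∀ u u' y, T u u' y → T u' u y) (hT' : ∀ u y, ¬ T u u y) : SimpleGraph (V × W) where
  Adj x y := (x.1 = y.1 ∧ L.Adj x.2 y.2) ∨ (x.2 = y.2 ∧ T x.1 y.1 x.2)
  symm := ⟨by
    rintro ⟨a, b⟩ ⟨c, d⟩ (⟨h1, h2⟩ | ⟨h1, h3⟩)
    · exact Or.inl ⟨h1.symm, h2.symm⟩
    · refine Or.inr ⟨h1.symm, ?_⟩
      simp only at h1 h3 ⊢
      rw [← h1]
      exact hT _ _ _ h3⟩
  loopless := ⟨by
    rintro ⟨a, b⟩ (⟨_, h⟩ | ⟨_, h⟩)
    · exact h.ne rfl
    · exact hT' _ _ h⟩

lemma layeredGen_isAcyclic (L : SimpleGraph W) (T : V → V → W → Prop)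
    (hT : ∀ u u' y, T u u' y → T u' u y) (hT' : ∀ u y, ¬ T u u y) (hL : L.IsAcyclic)
    (hPT : ∀ v, ∃ P : SimpleGraph V, P.IsAcyclic ∧
      ∀ u u' y, L.Reachable v y → T u u' y → P.Adj u u')
    (hA : ∀ u u' y y', T u u' y → T u u' y' → L.Reachable y y' → y = y') :
    (layeredGen L T hT hT').IsAcyclic := by
  rw [isAcyclic_iff_forall_adj_isBridge]
  rintro ⟨u, v⟩ ⟨u', v'⟩ (⟨h1, h2⟩ | ⟨h1, h3⟩)
  · -- an edge inside a layer
    simp only at h1 h2
    subst h1
    obtain ⟨P, hP, hPT⟩ := hPT v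
    rw [isBridge_iff]
    intro hreach
    have hbr : ¬ (L.deleteEdges {s(v, v')}).Reachable v v' :=
      (isAcyclic_iff_forall_adj_isBridge.1 hL) h2
    -- the invariant
    let I : V × W → Prop := fun p =>
      L.Reachable v p.2 ∧ ((p.1 = u ∧ (L.deleteEdges {s(v, v')}).Reachable v p.2) ∨
        (∃ u₁, P.Adj u u₁ ∧ (P.deleteEdges {s(u, u₁)}).Reachable u₁ p.1 ∧
          ∃ y₁, T u u₁ y₁ ∧ (L.deleteEdges {s(v, v')}).Reachable v y₁))
    have hbrP : ∀ u₁, P.Adj u u₁ → ¬ (P.deleteEdges {s(u, u₁)}).Reachable u₁ u := by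
      intro u₁ h h'
      exact (isAcyclic_iff_forall_adj_isBridge.1 hP) h h'.symm
    have hfin : I (u, v') := by
      refine reachable_induct I ⟨Reachable.refl _, Or.inl ⟨rfl, Reachable.refl _⟩⟩ ?_ hreach
      rintro ⟨x, y⟩ ⟨x', y'⟩ ⟨hr, hI⟩ hadj
      rw [deleteEdges_adj] at hadj
      obtain ⟨hadj, hne⟩ := hadj
      rcases hadj with ⟨g1, g2⟩ | ⟨g1, g3⟩
      · -- layer edge
        simp only at g1 g2 hr hI
        subst g1
        refine ⟨hr.trans g2.reachable, ?_⟩
        rcases hI with ⟨rfl, hI⟩ | hI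
        · left
          refine ⟨rfl, hI.trans ?_⟩
          refine Adj.reachable ?_
          rw [deleteEdges_adj]
          refine ⟨g2, fun hcon => hne ?_⟩
          simp only [Set.mem_singleton_iff, Sym2.eq, Sym2.rel_iff', Prod.mk.injEq,
            Prod.swap_prod_mk] at hcon ⊢
          rcases hcon with ⟨rfl, rfl⟩ | ⟨rfl, rfl⟩ <;> simp
        · exact Or.inr hI
      · -- vertical edge
        simp only at g1 g3 hr hI
        subst g1
        have g2 : P.Adj x x' := hPT _ _ _ hr g3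
        refine ⟨hr, ?_⟩
        rcases hI with ⟨rfl, hI⟩ | ⟨u₁, k1, k2, y₁, k3, k4⟩
        · right
          exact ⟨x', g2, Reachable.refl _, y, g3, hI⟩
        · by_cases hedge : s(x, x') = s(u, u₁)
          · rw [Sym2.eq_iff] at hedge
            rcases hedge with ⟨rfl, rfl⟩ | ⟨rfl, rfl⟩
            · exact absurd k2 (hbrP _ k1)
            · left
              refine ⟨rfl, ?_⟩
              have : y₁ = y := by
                refine hA _ _ _ _ k3 (hT _ _ _ g3) ?_
                exact ((k4.mono (deleteEdges_le _)).symm).trans hr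
              rw [← this]
              exact k4
          · right
            refine ⟨u₁, k1, k2.trans ?_, y₁, k3, k4⟩
            refine Adj.reachable ?_
            rw [deleteEdges_adj]
            exact ⟨g2, hedge⟩
    rcases hfin with ⟨_, ⟨_, h⟩ | ⟨u₁, k1, k2, _⟩⟩
    · exact hbr h
    · exact hbrP _ k1 k2
  · -- a vertical edge
    simp only at h1 h3
    subst h1
    obtain ⟨P, hP, hPT⟩ := hPT v
    have h2 : P.Adj u u' := hPT _ _ _ (Reachable.refl _) h3
    rw [isBridge_iff]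
    intro hreach
    have hbr : ¬ (P.deleteEdges {s(u, u')}).Reachable u u' :=
      (isAcyclic_iff_forall_adj_isBridge.1 hP) h2
    let I : V × W → Prop := fun p =>
      L.Reachable v p.2 ∧ (P.deleteEdges {s(u, u')}).Reachable u p.1
    have hfin : I (u', v) := by
      refine reachable_induct I ⟨Reachable.refl _, Reachable.refl _⟩ ?_ hreach
      rintro ⟨x, y⟩ ⟨x', y'⟩ ⟨hr, hI⟩ hadj
      rw [deleteEdges_adj] at hadj
      obtain ⟨hadj, hne⟩ := hadj
      rcases hadj with ⟨g1, g2⟩ | ⟨g1, g3⟩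
      · simp only at g1 g2 hr hI
        subst g1
        exact ⟨hr.trans g2.reachable, hI⟩
      · simp only at g1 g3 hr hI
        subst g1
        have g2 : P.Adj x x' := hPT _ _ _ hr g3
        refine ⟨hr, ?_⟩
        by_cases hedge : s(x, x') = s(u, u')
        · exfalso
          apply hne
          rw [Sym2.eq_iff] at hedge
          rcases hedge with ⟨rfl, rfl⟩ | ⟨rfl, rfl⟩
          · have : v = y := hA _ _ _ _ h3 g3 hr
            subst this
            rfl
          · have : v = y := hA _ _ _ _ h3 (hT _ _ _ g3) hr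
            subst this
            rw [Sym2.eq_swap]
            rfl
        · refine hI.trans (Adj.reachable ?_)
          rw [deleteEdges_adj]
          exact ⟨g2, hedge⟩
    exact hbr hfin.2

/-- Absorbing `j` linear forests: if `L₁, …, L_b` are linear forests on `W` whose degrees add up to
`2b - 2j` at every vertex, and `P₁, …, P_j` are linear forests on `V`, then
`(⋃ P_i) □ (⋃ L_c)` is the union of `b` linear forests. -/
lemma absorb [Finite V] [Finite W] {b j : ℕ} (P : Fin j → SimpleGraph V)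
    (hP : ∀ i, IsLinearForest (P i))
    (L : Fin b → SimpleGraph W) (hL : ∀ c, IsLinearForest (L c))
    (hsum : ∀ v, ∑ c, ((L c).neighborSet v).ncard + 2 * j = 2 * b) :
    CoveredBy ((⨆ i, P i) □ (⨆ c, L c)) b := by
  classical
  have hM := fun i => split_matchings _ (P i) (hP i) rfl
  choose M₁ M₂ hM1 hM2 hM3 hM4 using hM
  let M : Fin j × Bool → SimpleGraph V := fun x => if x.2 then M₁ x.1 else M₂ x.1
  have hMP : ∀ x u u', (M x).Adj u u' → (P x.1).Adj u u' := by
    rintro ⟨i, ε⟩ u u' h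
    cases ε
    · exact (hM1 i u u').2 (Or.inr h)
    · exact (hM1 i u u').2 (Or.inl h)
  have hMdisj : ∀ x x' u u', x.1 = x'.1 → x.2 ≠ x'.2 → (M x).Adj u u' → ¬ (M x').Adj u u' := by
    rintro ⟨i, ε⟩ ⟨i', ε'⟩ u u' h1 h2 h3 h4
    simp only at h1 h2
    subst h1
    cases ε <;> cases ε'
    · exact h2 rfl
    · exact hM2 i u u' h4 h3
    · exact hM2 i u u' h3 h4
    · exact h2 rfl
  have hMmatch : ∀ x u v w, (M x).Adj u v → (M x).Adj u w → v = w := by
    rintro ⟨i, ε⟩ u v w h1 h2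
    cases ε
    · exact hM4 i u v w h1 h2
    · exact hM3 i u v w h1 h2
  obtain ⟨s, hs1, hs2⟩ := slot_structure L hL hsum
  let T : Fin b → V → V → W → Prop := fun c u u' y => ∃ x, (M x).Adj u u' ∧ s y x = c
  have hT : ∀ c u u' y, T c u u' y → T c u' u y := by
    rintro c u u' y ⟨x, h1, h2⟩
    exact ⟨x, h1.symm, h2⟩
  have hT' : ∀ c u y, ¬ T c u u y := by
    rintro c u y ⟨x, h1, _⟩
    exact h1.ne rfl
  refine ⟨fun c => layeredGen (L c) (T c) (hT c) (hT' c), fun c => ⟨?_, ?_⟩, ?_⟩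
  · refine layeredGen_isAcyclic (L c) (T c) (hT c) (hT' c) (hL c).1 ?_ ?_
    · intro v
      by_cases hex : ∃ u u' y, (L c).Reachable v y ∧ T c u u' y
      · obtain ⟨u₀, u₀', y₀, hr₀, x₀, hx₀, hsx₀⟩ := hex
        refine ⟨P x₀.1, (hP x₀.1).1, ?_⟩
        rintro u u' y hr ⟨x, hx, hsx⟩
        have h1 : x₀.1 = x.1 := by
          rcases hs2 y₀ y x₀ x (hsx₀.trans hsx.symm) (by
            rw [hsx₀]; exact hr₀.symm.trans hr) with h | h
          · rw [h.2]
          · exact h.1
        rw [h1]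
        exact hMP x u u' hx
      · refine ⟨⊥, isAcyclic_bot, ?_⟩
        intro u u' y h1 h2
        exact absurd ⟨u, u', y, h1, h2⟩ hex
    · rintro u u' y y' ⟨x, hx, hsx⟩ ⟨x', hx', hsx'⟩ hr
      rcases hs2 y y' x x' (hsx.trans hsx'.symm) (by rw [hsx]; exact hr) with h | h
      · exact h.1
      · exact absurd hx' (hMdisj x x' u u' h.1 h.2 hx)
  · rintro ⟨u, v⟩
    show ((layeredGen (L c) (T c) (hT c) (hT' c)).neighborSet (u, v)).ncard ≤ 2
    let A : Set (V × W) := (fun w => (u, w)) '' (L c).neighborSet v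
    let X : Finset (Fin j × Bool) := Finset.univ.filter (fun x => s v x = c)
    let B : Fin j × Bool → Set (V × W) := fun x => {q | (M x).Adj u q.1 ∧ q.2 = v}
    have hsub : (layeredGen (L c) (T c) (hT c) (hT' c)).neighborSet (u, v) ⊆
        A ∪ (⋃ x ∈ X, B x) := by
      rintro ⟨u', v'⟩ (⟨h1, h2⟩ | ⟨h1, x, h3, h4⟩)
      · left
        simp only at h1 h2
        subst h1
        exact ⟨v', h2, rfl⟩
      · right
        simp only at h1 h3 h4
        simp only [Set.mem_iUnion]
        exact ⟨x, by simp [X, h4], h3, h1.symm⟩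
    have hA : A.ncard ≤ ((L c).neighborSet v).ncard := Set.ncard_image_le (Set.toFinite _)
    have hB : ∀ x, (B x).ncard ≤ 1 := by
      intro x
      rw [Set.ncard_le_one (Set.toFinite _)]
      rintro ⟨a, b⟩ ⟨h1, h2⟩ ⟨a', b'⟩ ⟨h3, h4⟩
      simp only at h1 h2 h3 h4
      rw [h2, h4, hMmatch x u a a' h1 h3]
    have hBu : (⋃ x ∈ X, B x).ncard ≤ X.card := by
      have : ∀ Y : Finset (Fin j × Bool), (⋃ x ∈ Y, B x).ncard ≤ Y.card := by
        intro Y
        induction Y using Finset.induction_on with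
        | empty => simp
        | insert a Y ha ih =>
          rw [Finset.set_biUnion_insert, Finset.card_insert_of_notMem ha]
          have h1 := Set.ncard_union_le (B a) (⋃ x ∈ Y, B x)
          have h2 := hB a
          omega
      exact this X
    have h1 := (Set.ncard_le_ncard hsub (Set.toFinite _)).trans (Set.ncard_union_le _ _)
    have h2 := hs1 v c
    have h3 : X.card = (Finset.univ.filter (fun x : Fin j × Bool => s v x = c)).card := rfl
    omega
  · ext ⟨u, v⟩ ⟨u', v'⟩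
    rw [iSup_adj, boxProd_adj]
    simp only [iSup_adj]
    constructor
    · rintro ⟨c, ⟨h1, h2⟩ | ⟨h1, x, h2, h3⟩⟩
      · exact Or.inr ⟨⟨c, h2⟩, h1⟩
      · exact Or.inl ⟨⟨x.1, hMP x _ _ h2⟩, h1⟩
    · rintro (⟨⟨i, h1⟩, h2⟩ | ⟨⟨c, h1⟩, h2⟩)
      · rcases (hM1 i u u').1 h1 with h3 | h3
        · exact ⟨s v (i, true), Or.inr ⟨h2, (i, true), h3, rfl⟩⟩
        · exact ⟨s v (i, false), Or.inr ⟨h2, (i, false), h3, rfl⟩⟩
      · exact ⟨c, Or.inl ⟨h2, h1⟩⟩

end Pool.Agent.Helper14_LA
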