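import Mathlib
import Pool.Agent.Helper14_LA.ProdGen

set_option autoImplicit false

open SimpleGraph

namespace Pool.Agent.Helper14_LA

variable {V W : Type*}

/-- General form: `G` is a union of `a + j` linear forests, `H` is a union of `b` linear forests and
all degrees of `H` are equal to `2b - 2j`. Then `G □ H` is a union of `a + b` linear forests. -/
theorem coveredBy_boxProd_gen [Finite V] [Finite W] (G : SimpleGraph V) (H : SimpleGraph W)
    {a b j : ℕ} (hG : CoveredBy G (a + j)) (hH : CoveredBy H b)
    (hdeg : ∀ v, (H.neighborSet v).ncard + 2 * j = 2 * b) : CoveredBy (G □ H) (a + b) := by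
  classical
  obtain ⟨K, hK, hKG⟩ := hG
  obtain ⟨L₀, hL₀, hLH₀⟩ := hH
  obtain ⟨L, hL, hLH, hsum⟩ := disjointify H L₀ hL₀ hLH₀
  let P : Fin j → SimpleGraph V := fun i => K (Fin.natAdd a i)
  obtain ⟨F, hF, hFsup⟩ := absorb P (fun i => hK _) L hL (fun v => by rw [hsum]; exact hdeg v)
  let E : Fin a → SimpleGraph (V × W) := fun i =>
    layered (K (Fin.castAdd j i)) ⊥ (fun _ _ _ => True) (fun _ _ _ _ => trivial)
  have hE : ∀ i, IsLinearForest (E i) := by
    intro i
    refine ⟨?_, ?_⟩
    · refine layered_isAcyclic _ _ _ _ (hK (Fin.castAdd j i)).1 isAcyclic_bot ?_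
      rintro u u' y y' _ _ _ hr
      exact reachable_bot.1 hr
    · rintro ⟨u, v⟩
      refine le_trans ?_ ((hK (Fin.castAdd j i)).2 u)
      refine le_trans (Set.ncard_le_ncard ?_ (Set.toFinite _))
        (Set.ncard_image_le (f := fun w => (w, v)) (Set.toFinite ((K (Fin.castAdd j i)).neighborSet u)))
      rintro ⟨u', v'⟩ (⟨_, h2⟩ | ⟨h1, h2, _⟩)
      · exact absurd h2 (by simp)
      · simp only at h1 h2
        subst h1
        exact ⟨u', h2, rfl⟩
  refine ⟨Fin.append E F, ?_, ?_⟩
  · intro i
    refine Fin.addCases (fun i => ?_) (fun i => ?_) i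
    · rw [Fin.append_left]; exact hE i
    · rw [Fin.append_right]; exact hF i
  · ext ⟨u, v⟩ ⟨u', v'⟩
    rw [iSup_adj, boxProd_adj]
    have hF' : ∀ x y, (∃ c, (F c).Adj x y) ↔ ((⨆ i, P i) □ H).Adj x y := by
      intro x y
      rw [← hLH, ← hFsup, iSup_adj]
    constructor
    · rintro ⟨i, hi⟩
      revert hi
      refine Fin.addCases (fun i => ?_) (fun i => ?_) i
      · rw [Fin.append_left]
        rintro (⟨_, h2⟩ | ⟨h1, h2, _⟩)
        · exact absurd h2 (by simp)
        · left
          refine ⟨?_, h1⟩
          rw [← hKG, iSup_adj]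
          exact ⟨_, h2⟩
      · rw [Fin.append_right]
        intro hi
        rcases boxProd_adj.1 ((hF' _ _).1 ⟨i, hi⟩) with ⟨h1, h2⟩ | h
        · left
          refine ⟨?_, h2⟩
          rw [iSup_adj] at h1
          obtain ⟨i', h1⟩ := h1
          rw [← hKG, iSup_adj]
          exact ⟨_, h1⟩
        · exact Or.inr h
    · intro h
      by_cases h0 : ((⨆ i, P i) □ H).Adj (u, v) (u', v')
      · obtain ⟨c, hc⟩ := (hF' _ _).2 h0
        exact ⟨Fin.natAdd a c, by rw [Fin.append_right]; exact hc⟩
      · rcases h with ⟨h1, h2⟩ | h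
        · rw [← hKG, iSup_adj] at h1
          obtain ⟨i, hi⟩ := h1
          revert hi
          refine Fin.addCases (fun i => ?_) (fun i => ?_) i
          · intro hi
            exact ⟨Fin.castAdd b i, by
              rw [Fin.append_left]
              exact Or.inr ⟨h2, hi, trivial⟩⟩
          · intro hi
            refine absurd (boxProd_adj.2 (Or.inl ⟨?_, h2⟩)) h0
            rw [iSup_adj]
            exact ⟨i, hi⟩
        · exact absurd (boxProd_adj.2 (Or.inr h)) h0

/-- Greedy bound: a graph with all degrees at most `s` is the union of `s` linear forests. -/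
lemma greedy [Finite W] (s : ℕ) : ∀ (n : ℕ) (H : SimpleGraph W), H.edgeSet.ncard = n →
    (∀ v, (H.neighborSet v).ncard ≤ s) → CoveredBy H s := by
  classical
  intro n
  induction n using Nat.strong_induction_on with
  | _ n ih =>
  intro H hn hdeg
  by_cases hbot : H = ⊥
  · subst hbot
    refine ⟨fun _ => ⊥, fun _ => ⟨isAcyclic_bot, fun v => ?_⟩, ?_⟩
    · have : ((⊥ : SimpleGraph W).neighborSet v) = ∅ := by
        ext w
        simp
      rw [this]
      simp
    · simp
  obtain ⟨u, v, huv⟩ : ∃ a b, H.Adj a b := by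
    by_contra hcon
    push Not at hcon
    apply hbot
    ext u v
    simp [hcon u v]
  set H' := H.deleteEdges {s(u, v)} with hH'
  have hle : H' ≤ H := deleteEdges_le _
  have hcard : H'.edgeSet.ncard < n := by
    rw [← hn]
    refine Set.ncard_lt_ncard ?_ (Set.toFinite _)
    rw [hH', edgeSet_deleteEdges]
    refine ⟨Set.sdiff_subset, fun hcon => ?_⟩
    exact (hcon (show s(u, v) ∈ H.edgeSet from huv)).2 rfl
  have hadj : ∀ x y, H.Adj x y ↔ H'.Adj x y ∨ (x = u ∧ y = v) ∨ (x = v ∧ y = u) := by
    intro x y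
    rw [hH', deleteEdges_adj]
    constructor
    · intro h
      by_cases h2 : s(x, y) ∈ ({s(u, v)} : Set (Sym2 W))
      · right
        simpa using h2
      · exact Or.inl ⟨h, h2⟩
    · rintro (h | ⟨rfl, rfl⟩ | ⟨rfl, rfl⟩)
      · exact h.1
      · exact huv
      · exact huv.symm
  have hdeg' : ∀ x, (H'.neighborSet x).ncard ≤ s := fun x =>
    (Set.ncard_le_ncard (fun y hy => hle hy) (Set.toFinite _)).trans (hdeg x)
  have hdegu : (H'.neighborSet u).ncard + 1 ≤ s := by
    refine le_trans ?_ (hdeg u)
    have h1 : insert v (H'.neighborSet u) ⊆ H.neighborSet u := by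
      intro y hy
      rcases hy with rfl | hy
      · exact huv
      · exact hle hy
    have h2 : v ∉ H'.neighborSet u := by
      intro hcon
      have : H'.Adj u v := hcon
      rw [hH', deleteEdges_adj] at this
      exact this.2 rfl
    rw [← Set.ncard_insert_of_notMem h2 (Set.toFinite _)]
    exact Set.ncard_le_ncard h1 (Set.toFinite _)
  have hdegv : (H'.neighborSet v).ncard + 1 ≤ s := by
    refine le_trans ?_ (hdeg v)
    have h1 : insert u (H'.neighborSet v) ⊆ H.neighborSet v := by
      intro y hy
      rcases hy with rfl | hy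
      · exact huv.symm
      · exact hle hy
    have h2 : u ∉ H'.neighborSet v := by
      intro hcon
      have : H'.Adj v u := hcon
      rw [hH', deleteEdges_adj] at this
      exact this.2 (by rw [Sym2.eq_swap]; rfl)
    rw [← Set.ncard_insert_of_notMem h2 (Set.toFinite _)]
    exact Set.ncard_le_ncard h1 (Set.toFinite _)
  obtain ⟨L₀, hL₀, hLH₀⟩ := ih _ hcard H' rfl hdeg'
  obtain ⟨L, hL, hLH, hsum⟩ := disjointify H' L₀ hL₀ hLH₀
  obtain ⟨c, hc⟩ : ∃ c, ((L c).neighborSet u).ncard + ((L c).neighborSet v).ncard ≤ 1 := by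
    by_contra hcon
    push Not at hcon
    have h1 : ∑ c : Fin s, 2 ≤ ∑ c, (((L c).neighborSet u).ncard + ((L c).neighborSet v).ncard) :=
      Finset.sum_le_sum fun c _ => hcon c
    rw [Finset.sum_add_distrib, hsum, hsum] at h1
    simp at h1
    omega
  have hnr : ¬ (L c).Reachable u v := by
    intro hr
    have hu0 : ((L c).neighborSet u).ncard = 0 ∨ ((L c).neighborSet v).ncard = 0 := by omega
    rcases hu0 with h0 | h0
    · obtain ⟨p⟩ := hr
      cases p with
      | nil => exact huv.ne rfl
      | cons h _ =>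
        rw [Set.ncard_eq_zero (Set.toFinite _)] at h0
        exact (Set.eq_empty_iff_forall_notMem.1 h0 _) h
    · obtain ⟨p⟩ := hr.symm
      cases p with
      | nil => exact huv.ne rfl
      | cons h _ =>
        rw [Set.ncard_eq_zero (Set.toFinite _)] at h0
        exact (Set.eq_empty_iff_forall_notMem.1 h0 _) h
  have hnew : IsLinearForest (L c ⊔ SimpleGraph.edge u v) := by
    refine ⟨(isAcyclic_add_edge_iff_of_not_reachable u v hnr).2 (hL c).1, ?_⟩
    intro x
    by_cases hx : x = u ∨ x = v
    · have hsub : ((L c ⊔ SimpleGraph.edge u v).neighborSet x) ⊆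
          insert (if x = u then v else u) ((L c).neighborSet x) := by
        intro y hy
        have hy' : (L c).Adj x y ∨ (SimpleGraph.edge u v).Adj x y := hy
        rw [edge_adj] at hy'
        rcases hy' with h | ⟨⟨rfl, rfl⟩ | ⟨rfl, rfl⟩, _⟩
        · exact Or.inr h
        · simp
        · simp [huv.ne.symm]
      have h1 := Set.ncard_le_ncard hsub (Set.toFinite _)
      have h2 := Set.ncard_insert_le (if x = u then v else u) ((L c).neighborSet x)
      have h3 : ((L c).neighborSet x).ncard ≤ 1 := by
        rcases hx with rfl | rfl <;> omega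
      omega
    · push Not at hx
      refine le_trans (Set.ncard_le_ncard ?_ (Set.toFinite _)) ((hL c).2 x)
      intro y hy
      have hy' : (L c).Adj x y ∨ (SimpleGraph.edge u v).Adj x y := hy
      rw [edge_adj] at hy'
      rcases hy' with h | ⟨⟨rfl, rfl⟩ | ⟨rfl, rfl⟩, _⟩
      · exact h
      · exact absurd rfl hx.1
      · exact absurd rfl hx.2
  refine ⟨Function.update L c (L c ⊔ SimpleGraph.edge u v), ?_, ?_⟩
  · intro c'
    by_cases h : c' = c
    · subst h
      rw [Function.update_self]
      exact hnew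
    · rw [Function.update_of_ne h]
      exact hL c'
  · ext x y
    rw [iSup_adj, hadj, ← hLH, iSup_adj]
    constructor
    · rintro ⟨c', h⟩
      by_cases h' : c' = c
      · subst h'
        rw [Function.update_self, sup_adj, edge_adj] at h
        rcases h with h | ⟨h, _⟩
        · exact Or.inl ⟨_, h⟩
        · exact Or.inr h
      · rw [Function.update_of_ne h'] at h
        exact Or.inl ⟨_, h⟩
    · rintro (⟨c', h⟩ | h)
      · by_cases h' : c' = c
        · subst h'
          refine ⟨c', ?_⟩
          rw [Function.update_self]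
          exact Or.inl h
        · refine ⟨c', ?_⟩
          rw [Function.update_of_ne h']
          exact h
      · refine ⟨c, ?_⟩
        rw [Function.update_self, sup_adj, edge_adj]
        right
        refine ⟨h, ?_⟩
        rcases h with ⟨rfl, rfl⟩ | ⟨rfl, rfl⟩
        · exact huv.ne
        · exact huv.ne.symm

/-- Lower bound. -/
lemma lower_bound [Finite V] [Nonempty V] (G : SimpleGraph V) {r k : ℕ} (hr : 0 < r)
    (hreg : ∀ v, (G.neighborSet v).ncard = r) (h : CoveredBy G k) : (r + 2) / 2 ≤ k := by
  classical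
  have := Fintype.ofFinite V
  obtain ⟨L₀, hL₀, hLH₀⟩ := h
  obtain ⟨L, hL, hLH, hsum⟩ := disjointify G L₀ hL₀ hLH₀
  by_contra hlt
  have hle : 2 * k ≤ r := by omega
  obtain ⟨v₀⟩ := (inferInstance : Nonempty V)
  have hall : ∀ v c, ((L c).neighborSet v).ncard = 2 := by
    intro v
    have h1 : ∑ c, (2 - ((L c).neighborSet v).ncard) + ∑ c, ((L c).neighborSet v).ncard
        = 2 * k := by
      rw [← Finset.sum_add_distrib]
      rw [Finset.sum_congr rfl (g := fun _ => 2)]
      · simp [mul_comm]
      · intro c _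
        have := (hL c).2 v
        omega
    have h2 := hsum v
    rw [hreg] at h2
    have h3 : ∑ c, (2 - ((L c).neighborSet v).ncard) = 0 := by omega
    rw [Finset.sum_eq_zero_iff] at h3
    intro c
    have h4 := h3 c (Finset.mem_univ _)
    have := (hL c).2 v
    omega
  have hk : 0 < k := by
    rcases Nat.eq_zero_or_pos k with h0 | h0
    · subst h0
      have h2 := hsum v₀
      rw [hreg] at h2
      simp at h2
      omega
    · exact h0
  have h5 := slot_sum (L ⟨0, hk⟩) (hL _) ((L ⟨0, hk⟩).connectedComponentMk v₀)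
  rw [Finset.sum_eq_zero] at h5
  · omega
  · intro v _
    simp [hall]

lemma CoveredBy.mono {G : SimpleGraph V} {k k' : ℕ} (h : CoveredBy G k) (hk : k ≤ k') :
    CoveredBy G k' := by
  obtain ⟨F, hF, hFG⟩ := h
  obtain ⟨d, rfl⟩ := Nat.exists_eq_add_of_le hk
  refine ⟨Fin.append F (fun _ : Fin d => ⊥), ?_, ?_⟩
  · intro i
    refine Fin.addCases (fun i => ?_) (fun i => ?_) i
    · rw [Fin.append_left]; exact hF i
    · rw [Fin.append_right]
      refine ⟨isAcyclic_bot, fun v => ?_⟩
      have : ((⊥ : SimpleGraph V).neighborSet v) = ∅ := by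
        ext w
        simp
      rw [this]
      simp
  · rw [← hFG]
    ext u v
    rw [iSup_adj, iSup_adj]
    constructor
    · rintro ⟨i, hi⟩
      revert hi
      refine Fin.addCases (fun i => ?_) (fun i => ?_) i
      · rw [Fin.append_left]
        exact fun h => ⟨i, h⟩
      · rw [Fin.append_right]
        exact fun h => absurd h (by simp)
    · rintro ⟨i, hi⟩
      exact ⟨Fin.castAdd d i, by rw [Fin.append_left]; exact hi⟩

lemma IsLinearForest.comap [Finite V] {F : SimpleGraph V} (hF : IsLinearForest F) (f : W ↪ V) :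
    IsLinearForest (F.comap f) := by
  refine ⟨hF.1.of_comap f, fun w => ?_⟩
  refine le_trans ?_ (hF.2 (f w))
  rw [← Set.ncard_image_of_injective _ f.injective]
  refine Set.ncard_le_ncard ?_ (Set.toFinite _)
  rintro _ ⟨y, hy, rfl⟩
  exact hy

lemma CoveredBy.comap [Finite V] {G : SimpleGraph V} {k : ℕ} (h : CoveredBy G k) (f : W ↪ V) :
    CoveredBy (G.comap f) k := by
  obtain ⟨F, hF, hFG⟩ := h
  refine ⟨fun i => (F i).comap f, fun i => (hF i).comap f, ?_⟩
  rw [← hFG]
  ext u v
  simp [iSup_adj]

end Pool.Agent.Helper14_LA
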