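import Mathlib
import Pool.Agent.Helper14_LA.Final

set_option autoImplicit false

open SimpleGraph

namespace Pool.Agent.Helper14_LA

/-- The upper bound for Cartesian products of regular graphs. -/
lemma core {V W : Type*} [Finite V] [Finite W] (G : SimpleGraph V) (H : SimpleGraph W)
    (r s b : ℕ) (hH' : ∀ v, (H.neighborSet v).ncard = s)
    (hcG : CoveredBy G ((r + 2) / 2)) (hcH : CoveredBy H b)
    (hpar : Odd r ∨ Even s) (hb : b ≤ (r + 2) / 2 + (s + 1) / 2) :
    CoveredBy (G □ H) ((r + s + 2) / 2) := by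
  classical
  rcases Nat.even_or_odd' s with ⟨l, hl | hl⟩
  · obtain ⟨j, hj⟩ : ∃ j, max b l = l + j := ⟨max b l - l, by omega⟩
    obtain ⟨a, ha⟩ : ∃ a, (r + 2) / 2 = a + j := ⟨(r + 2) / 2 - j, by omega⟩
    rw [ha] at hcG
    have h1 := coveredBy_boxProd_gen G H (b := max b l) hcG (hcH.mono (le_max_left _ _))
      (fun v => by rw [hH']; omega)
    have h2 : a + max b l = (r + s + 2) / 2 := by omega
    rwa [h2] at h1
  · have hro : Odd r := by
      rcases hpar with h | h
      · exact h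
      · exfalso
        obtain ⟨m, hm⟩ := h
        omega
    obtain ⟨m, hm⟩ := hro
    let K : SimpleGraph (Fin 2 × W) := (⊤ : SimpleGraph (Fin 2)) □ H
    have htop : ∀ x : Fin 2, ((⊤ : SimpleGraph (Fin 2)).neighborSet x).ncard = 1 := by
      intro x
      rw [← Nat.card_coe_set_eq, Nat.card_eq_fintype_card, card_neighborSet_eq_degree]
      simp
    have hctop : CoveredBy (⊤ : SimpleGraph (Fin 2)) (0 + 1) :=
      greedy 1 _ _ rfl (fun v => (htop v).le)
    have hcK : CoveredBy K (0 + max b (l + 2)) :=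
      coveredBy_boxProd (⊤ : SimpleGraph (Fin 2)) H hctop (hcH.mono (le_max_left _ _))
        (fun v => by rw [hH']; omega)
    rw [zero_add] at hcK
    have hK : ∀ x, (K.neighborSet x).ncard = s + 1 := by
      rintro ⟨i, w⟩
      have h1 : K.neighborSet (i, w) = (fun w' => (i, w')) '' H.neighborSet w ∪
          (fun i' => (i', w)) '' (⊤ : SimpleGraph (Fin 2)).neighborSet i := by
        ext ⟨i', w'⟩
        simp only [mem_neighborSet, K, boxProd_adj, Set.mem_union, Set.mem_image, Prod.mk.injEq]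
        constructor
        · rintro (⟨h, h'⟩ | ⟨h, h'⟩)
          · exact Or.inr ⟨i', h, rfl, h'⟩
          · exact Or.inl ⟨w', h, h', rfl⟩
        · rintro (⟨_, h, h', rfl⟩ | ⟨_, h, rfl, h'⟩)
          · exact Or.inr ⟨h, h'⟩
          · exact Or.inl ⟨h, h'⟩
      rw [h1, Set.ncard_union_eq]
      · rw [Set.ncard_image_of_injective, Set.ncard_image_of_injective, hH', htop]
        · intro a b h
          simpa using h
        · intro a b h
          simpa using h
      · rw [Set.disjoint_left]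
        rintro _ ⟨w', hw', rfl⟩ ⟨i', hi', h⟩
        simp only [Prod.mk.injEq] at h
        have hadj : (⊤ : SimpleGraph (Fin 2)).Adj i i' := hi'
        exact hadj.ne h.1.symm
    obtain ⟨j, hj⟩ : ∃ j, max b (l + 2) = (l + 1) + j := ⟨max b (l + 2) - (l + 1), by omega⟩
    obtain ⟨a, ha⟩ : ∃ a, (r + 2) / 2 = a + j := ⟨(r + 2) / 2 - j, by omega⟩
    rw [ha] at hcG
    have h1 := coveredBy_boxProd_gen G K (b := max b (l + 2)) hcG hcK
      (fun v => by rw [hK]; omega)
    let f : V × W ↪ V × (Fin 2 × W) :=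
      ⟨fun x => (x.1, (0, x.2)), by
        rintro ⟨a, b⟩ ⟨c, d⟩ h
        simpa using h⟩
    have h2 := h1.comap f
    have h3 : (G □ K).comap f = G □ H := by
      ext ⟨u, w⟩ ⟨u', w'⟩
      change (G.Adj u u' ∧ ((0 : Fin 2), w) = (0, w')) ∨
        (((⊤ : SimpleGraph (Fin 2)).Adj 0 0 ∧ w = w' ∨ H.Adj w w' ∧ (0 : Fin 2) = 0) ∧ u = u') ↔
        (G.Adj u u' ∧ w = w' ∨ H.Adj w w' ∧ u = u')
      simp
    rw [h3] at h2
    have h4 : a + max b (l + 2) = (r + s + 2) / 2 := by omega
    rwa [h4] at h2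

end Pool.Agent.Helper14_LA
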